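import Pool.Agent.Q106.PK.Stm

/-!
# Project PK, job SUPER: supermultiplicativity
-/

set_option autoImplicit false

namespace Pool.Agent.Q106.PK

/-- two translates in normal form 1 are equal -/
theorem super_lex (h2 : S_LEXA) {P P' : Finset (ℤ × ℤ)} {v v' : ℤ × ℤ} (hne : P.Nonempty)
    (hP : LexA P) (hP' : LexA P') (h : tr v P = tr v' P') : P = P' := by
  have e : P' = tr (-v' + v) P := by
    rw [← tr_tr, h, tr_tr, neg_add_cancel, tr_zero]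
  have hu := (h2 P hne).unique (y₁ := 0) (y₂ := -v' + v) (by rwa [tr_zero]) (by rwa [← e])
  rw [e, ← hu, tr_zero]

theorem super_fin (h2 : S_LEXA) (h3 : S_BOXA) (h4 : S_FIN) (k : ℕ) :
    Finite {P : Finset (ℤ × ℤ) // IsOmino k P ∧ LexA P} := by
  have hf : Finite {P : Finset (ℤ × ℤ) // P ∈ {P : Finset (ℤ × ℤ) | IsOmino k P ∧ BoxA P}} :=
    (h4 k).to_subtype
  choose v hv using fun P : {P : Finset (ℤ × ℤ) // IsOmino k P ∧ LexA P} =>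
    (h3 P.1 P.2.1.2.1).exists
  let f : {P : Finset (ℤ × ℤ) // IsOmino k P ∧ LexA P} →
      {P : Finset (ℤ × ℤ) // P ∈ {P : Finset (ℤ × ℤ) | IsOmino k P ∧ BoxA P}} :=
    fun P => ⟨tr (v P) P.1, isOmino_tr _ P.2.1, hv P⟩
  refine Finite.of_injective f ?_
  intro P P' h
  have h' : tr (v P) P.1 = tr (v P') P'.1 := congrArg Subtype.val h
  exact Subtype.ext (super_lex h2 P.2.1.2.1 P.2.2 P'.2.2 h')

theorem t_SUPER (h1 : S_REP) (h2 : S_LEXA) (h3 : S_BOXA) (h4 : S_FIN) (h5 : S_CAT)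
    (h6 : S_CATI) : S_SUPER := by
  intro m n _ _
  have hL : ∀ k : ℕ, t k = Nat.card {P : Finset (ℤ × ℤ) // IsOmino k P ∧ LexA P} :=
    fun k => h1 k LexA fun P hP => h2 P hP.2.1
  rw [hL m, hL n, hL (m + n), ← Nat.card_prod]
  have hfin := super_fin h2 h3 h4 (m + n)
  choose w hw using fun (P : {P : Finset (ℤ × ℤ) // IsOmino m P ∧ LexA P})
    (Q : {P : Finset (ℤ × ℤ) // IsOmino n P ∧ LexA P}) =>
    h5 m n P.1 Q.1 P.2.1 P.2.2 Q.2.1 Q.2.2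
  let f : {P : Finset (ℤ × ℤ) // IsOmino m P ∧ LexA P} ×
      {P : Finset (ℤ × ℤ) // IsOmino n P ∧ LexA P} →
      {P : Finset (ℤ × ℤ) // IsOmino (m + n) P ∧ LexA P} :=
    fun x => ⟨x.1.1 ∪ tr (w x.1 x.2) x.2.1, (hw x.1 x.2).1, (hw x.1 x.2).2.1⟩
  refine Nat.card_le_card_of_injective f ?_
  rintro ⟨P, Q⟩ ⟨P', Q'⟩ h
  have h' : P.1 ∪ tr (w P Q) Q.1 = P'.1 ∪ tr (w P' Q') Q'.1 := congrArg Subtype.val h
  have hc : P.1.card = P'.1.card := by rw [P.2.1.1, P'.2.1.1]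
  obtain ⟨e1, e2⟩ := h6 _ _ _ _ h' hc (hw P Q).2.2 (hw P' Q').2.2
  have e3 := super_lex h2 Q.2.1.2.1 Q.2.2 Q'.2.2 e2
  exact Prod.ext (Subtype.ext e1) (Subtype.ext e3)

end Pool.Agent.Q106.PK
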