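import Pool.Agent.Q127.SM.Stm

/-!
# Project SM (helper127), job TRF: the transfer
-/

set_option autoImplicit false

open Complex Matrix.SpecialLinearGroup MatrixGroups ModularGroup

namespace Pool.Agent.Q223.SM

open Pool.Agent.TH133.SH Pool.Agent.Q127.SM

/-- **TRF** -/
theorem trf : S_trf := by
  intro M M' n h _ h1 h2 h3 Φ K hΦ γ hγ
  have hex : ∀ i, ∃ j, i < n → j < n ∧ InG M' (h i * γ * (h j)⁻¹) := by
    intro i
    by_cases hi : i < n
    · obtain ⟨j, hj, hj'⟩ := h2 (h i * γ) ((h1 i hi).mul hγ)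
      exact ⟨j, fun _ => ⟨hj, hj'⟩⟩
    · exact ⟨0, fun h => absurd h hi⟩
  choose σ hσ using hex
  refine ⟨σ, fun i hi => hσ i hi, fun τ hτ => ?_⟩
  have hinj : Set.InjOn σ (Finset.range n : Set ℕ) := by
    intro i hi j hj hij
    have hi' : i < n := Finset.mem_range.1 hi
    have hj' : j < n := Finset.mem_range.1 hj
    refine h3 i hi' j hj' ?_
    have h4 : h i * (h j)⁻¹ = (h i * γ * (h (σ i))⁻¹) * (h j * γ * (h (σ j))⁻¹)⁻¹ := by
      rw [hij]
      group
    rw [h4]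
    exact (hσ i hi').2.mul (hσ j hj').2.inv
  have hmaps : ∀ i ∈ Finset.range n, σ i ∈ Finset.range n := fun i hi =>
    Finset.mem_range.2 (hσ i (Finset.mem_range.1 hi)).1
  have hsurj : Set.SurjOn σ (Finset.range n : Set ℕ) (Finset.range n : Set ℕ) :=
    Finset.surjOn_of_injOn_of_card_le σ hmaps hinj le_rfl
  have hperm : ∑ i ∈ Finset.range n, Φ (act (h (σ i)) τ) =
      ∑ i ∈ Finset.range n, Φ (act (h i) τ) :=
    Finset.sum_nbij σ hmaps hinj hsurj fun i _ => rfl
  rw [← hperm, ← Finset.sum_sub_distrib]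
  refine Finset.sum_congr rfl fun i hi => ?_
  have hi' : i < n := Finset.mem_range.1 hi
  have h5 : act (h i) (act γ τ) = act (h i * γ * (h (σ i))⁻¹) (act (h (σ i)) τ) := by
    rw [← act_mul _ _ hτ, ← act_mul _ _ hτ]
    congr 1
    group
  rw [h5, hΦ _ (hσ i hi').2 _ (act_im_pos _ hτ)]

end Pool.Agent.Q223.SM
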