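import Mathlib
import Pool.Agent.Q16.SQ.Stm3

/-!
# Project SQ (helper16), job PARA: grid dissection of a parallelogram

The first four lemmas are copied from `Pool/Agent/Q150/SQ_KSQ.lean` (job KSQ).
-/

set_option autoImplicit false
noncomputable section

open Pool.Agent.Helper549.Tri

namespace Pool.Agent.Q223.SQP

abbrev E2 := EuclideanSpace ℝ (Fin 2)

/-- affine coordinates -/
theorem coord (T : Fin 3 → E2) (hT : AffineIndependent ℝ T) (k : ℕ) (hk : 0 < k) :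
    ∃ Φ : (ℝ × ℝ) ≃ₜ E2, ∀ p, Φ p = T 0 + (p.1 • ((1 / k : ℝ) • (T 1 - T 0)) +
      p.2 • ((1 / k : ℝ) • (T 2 - T 0))) := by
  have hk' : (k : ℝ) ≠ 0 := by exact_mod_cast hk.ne'
  have h1 := (affineIndependent_iff_linearIndependent_vsub ℝ T 0).1 hT
  have h2 : LinearIndependent ℝ (fun i : Fin 2 => T i.succ - T 0) := by
    have := h1.comp (fun i : Fin 2 => (⟨i.succ, Fin.succ_ne_zero i⟩ : {x : Fin 3 // x ≠ 0}))
      (fun a b hab => by simpa using hab)
    exact this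
  let b := basisOfLinearIndependentOfCardEqFinrank h2 (by simp)
  have hb : ∀ i, b i = T i.succ - T 0 := fun i => by simp [b]
  let L : (ℝ × ℝ) ≃ₗ[ℝ] E2 := (LinearEquiv.finTwoArrow ℝ ℝ).symm ≪≫ₗ b.equivFun.symm
  have hL : ∀ p, L p = p.1 • (T 1 - T 0) + p.2 • (T 2 - T 0) := by
    intro p
    simp only [L, LinearEquiv.trans_apply, Module.Basis.equivFun_symm_apply, Fin.sum_univ_two, hb]
    simp [LinearEquiv.finTwoArrow]
  refine ⟨(Homeomorph.smulOfNeZero (1 / k : ℝ) (by positivity)).trans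
    (L.toContinuousLinearEquiv.toHomeomorph.trans (Homeomorph.addLeft (T 0))), fun p => ?_⟩
  have : (L.toContinuousLinearEquiv.toHomeomorph : ℝ × ℝ → E2) = L := rfl
  simp only [Homeomorph.trans_apply, Homeomorph.coe_addLeft, Homeomorph.smulOfNeZero_apply, this, hL]
  simp only [Prod.smul_fst, Prod.smul_snd, smul_eq_mul]
  module

/-- the tile in coordinates -/
def S (e : ℝ) (a : ℝ × ℝ) (r : ℝ) : Set (ℝ × ℝ) :=
  {p | 0 ≤ e * (p.1 - a.1) ∧ 0 ≤ e * (p.2 - a.2) ∧ e * (p.1 - a.1) + e * (p.2 - a.2) ≤ r}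

theorem tri {T : Fin 3 → E2} {u v : E2} {Φ : (ℝ × ℝ) ≃ₜ E2}
    (hΦ : ∀ p, Φ p = T 0 + (p.1 • u + p.2 • v)) {e r : ℝ} (he : e = 1 ∨ e = -1) (hr : 0 < r)
    (a : ℝ × ℝ) (w : Fin 3 → E2) (h0 : w 0 = Φ a) (h1 : w 1 = Φ (a.1 + e * r, a.2))
    (h2 : w 2 = Φ (a.1, a.2 + e * r)) : TriSet w = Φ '' S e a r := by
  have hee : e * e = 1 := by rcases he with rfl | rfl <;> norm_num
  apply Set.Subset.antisymm
  · apply convexHull_min
    · rintro _ ⟨i, rfl⟩
      fin_cases i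
      · exact ⟨a, by simp [S, hr.le], h0.symm⟩
      · refine ⟨(a.1 + e * r, a.2), ?_, h1.symm⟩
        simp only [S, Set.mem_ofPred_eq, add_sub_cancel_left, sub_self, mul_zero, add_zero,
          ← mul_assoc, hee, one_mul]
        exact ⟨hr.le, le_refl _, le_refl _⟩
      · refine ⟨(a.1, a.2 + e * r), ?_, h2.symm⟩
        simp only [S, Set.mem_ofPred_eq, add_sub_cancel_left, sub_self, mul_zero, zero_add,
          ← mul_assoc, hee, one_mul]
        exact ⟨le_refl _, hr.le, le_refl _⟩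
    · rintro _ ⟨p, hp, rfl⟩ _ ⟨q, hq, rfl⟩ s t hs ht hst
      refine ⟨(s * p.1 + t * q.1, s * p.2 + t * q.2), ?_, ?_⟩
      · obtain ⟨hp1, hp2, hp3⟩ := hp
        obtain ⟨hq1, hq2, hq3⟩ := hq
        have e1 : e * (s * p.1 + t * q.1 - a.1) = s * (e * (p.1 - a.1)) + t * (e * (q.1 - a.1)) := by
          linear_combination (e * a.1) * hst
        have e2 : e * (s * p.2 + t * q.2 - a.2) = s * (e * (p.2 - a.2)) + t * (e * (q.2 - a.2)) := by
          linear_combination (e * a.2) * hst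
        refine ⟨?_, ?_, ?_⟩
        · simp only [e1]; positivity
        · simp only [e2]; positivity
        · simp only [e1, e2]
          nlinarith [mul_le_mul_of_nonneg_left hp3 hs, mul_le_mul_of_nonneg_left hq3 ht]
      · rw [hΦ, hΦ, hΦ]
        obtain rfl : t = 1 - s := by linarith
        module
  · rintro _ ⟨p, ⟨hp1, hp2, hp3⟩, rfl⟩
    have hmem := (convex_convexHull ℝ (Set.range w)).sum_mem (t := Finset.univ)
      (w := ![1 - (e * (p.1 - a.1) / r + e * (p.2 - a.2) / r), e * (p.1 - a.1) / r,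
        e * (p.2 - a.2) / r]) (z := w) (by
          intro i _
          fin_cases i
          · simp only [Fin.zero_eta, Matrix.cons_val_zero, ← add_div, sub_nonneg]
            rw [div_le_one hr]; exact hp3
          · simp only [Fin.mk_one, Matrix.cons_val_one, Matrix.cons_val_zero]
            positivity
          · simp only [Fin.reduceFinMk, Matrix.cons_val]
            positivity) (by
          rw [Fin.sum_univ_three]
          simp only [Matrix.cons_val_zero, Matrix.cons_val_one, Matrix.cons_val]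
          ring) (fun i _ => subset_convexHull ℝ _ ⟨i, rfl⟩)
    have hE : Φ p = ∑ i ∈ Finset.univ, (![1 - (e * (p.1 - a.1) / r + e * (p.2 - a.2) / r),
        e * (p.1 - a.1) / r, e * (p.2 - a.2) / r] : Fin 3 → ℝ) i • w i := by
      rw [Fin.sum_univ_three]
      simp only [Matrix.cons_val_zero, Matrix.cons_val_one, Matrix.cons_val]
      rw [h0, h1, h2, hΦ, hΦ, hΦ, hΦ]
      set x := e * (p.1 - a.1) / r with hx
      set y := e * (p.2 - a.2) / r with hy
      have hp1' : p.1 = a.1 + e * (x * r) := by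
        rw [hx, div_mul_cancel₀ _ hr.ne']
        linear_combination (a.1 - p.1) * hee
      have hp2' : p.2 = a.2 + e * (y * r) := by
        rw [hy, div_mul_cancel₀ _ hr.ne']
        linear_combination (a.2 - p.2) * hee
      rw [hp1', hp2']
      simp only
      module
    show Φ p ∈ convexHull ℝ (Set.range w)
    rw [hE]
    exact hmem

theorem interior_S {e : ℝ} (he : e = 1 ∨ e = -1) (a : ℝ × ℝ) (r : ℝ) {p : ℝ × ℝ}
    (hp : p ∈ interior (S e a r)) :
    0 < e * (p.1 - a.1) ∧ 0 < e * (p.2 - a.2) ∧ e * (p.1 - a.1) + e * (p.2 - a.2) < r := by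
  have hee : e * e = 1 := by rcases he with rfl | rfl <;> norm_num
  have key : ∀ d : ℝ × ℝ, ∃ t : ℝ, 0 < t ∧ (p.1 + t * d.1, p.2 + t * d.2) ∈ S e a r := by
    intro d
    have hc : Continuous fun t : ℝ => ((p.1 + t * d.1, p.2 + t * d.2) : ℝ × ℝ) := by fun_prop
    have h0 : ∀ᶠ t : ℝ in nhds 0, ((p.1 + t * d.1, p.2 + t * d.2) : ℝ × ℝ) ∈ S e a r := by
      apply hc.continuousAt.eventually
      simp only [zero_mul, add_zero]
      exact mem_interior_iff_mem_nhds.1 hp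
    have h1 : ∀ᶠ t : ℝ in nhdsWithin 0 (Set.Ioi 0), ((p.1 + t * d.1, p.2 + t * d.2) : ℝ × ℝ) ∈ S e a r :=
      h0.filter_mono nhdsWithin_le_nhds
    obtain ⟨t, ht, ht0⟩ := (h1.and self_mem_nhdsWithin).exists
    exact ⟨t, ht0, ht⟩
  refine ⟨?_, ?_, ?_⟩
  · obtain ⟨t, ht, h, -, -⟩ := key (-e, 0)
    have : e * (p.1 + t * -e - a.1) = e * (p.1 - a.1) - t * (e * e) := by ring
    simp only [this, hee] at h
    linarith
  · obtain ⟨t, ht, -, h, -⟩ := key (0, -e)
    have : e * (p.2 + t * -e - a.2) = e * (p.2 - a.2) - t * (e * e) := by ring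
    simp only [this, hee] at h
    linarith
  · obtain ⟨t, ht, -, -, h⟩ := key (e, 0)
    have : e * (p.1 + t * e - a.1) = e * (p.1 - a.1) + t * (e * e) := by ring
    simp only [this, hee] at h
    simp only [mul_zero, add_zero] at h
    linarith


theorem coord2 (O u v : E2) (h : AffineIndependent ℝ ![0, u, v]) :
    ∃ Φ : (ℝ × ℝ) ≃ₜ E2, ∀ p, Φ p = (fun _ : Fin 3 => O) 0 + (p.1 • u + p.2 • v) := by
  obtain ⟨Φ, hΦ⟩ := coord ![0, u, v] h 1 one_pos
  refine ⟨Φ.trans (Homeomorph.addLeft O), fun p => ?_⟩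
  simp only [Homeomorph.trans_apply, Homeomorph.coe_addLeft, hΦ]
  simp

/-- sign of the tile -/
def sg (b : Bool) : ℝ := if b then 1 else -1

theorem sg_or (b : Bool) : sg b = 1 ∨ sg b = -1 := by
  cases b <;> simp [sg]

/-- corner of the tile `(i, j, b)` -/
def co (i j : ℕ) (b : Bool) : ℝ × ℝ := if b then ((i : ℝ), (j : ℝ)) else ((i : ℝ) + 1, (j : ℝ) + 1)

theorem idx (m : ℕ) (hm : 0 < m) (x : ℝ) (h0 : 0 ≤ x) (h1 : x ≤ m) :
    ∃ i : ℕ, i < m ∧ (i : ℝ) ≤ x ∧ x ≤ i + 1 := by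
  by_cases h : ⌊x⌋₊ < m
  · exact ⟨⌊x⌋₊, h, Nat.floor_le h0, (Nat.lt_floor_add_one x).le⟩
  · push Not at h
    have h2 : (m : ℝ) ≤ x := (Nat.le_floor_iff h0).1 h
    refine ⟨m - 1, by omega, ?_, ?_⟩
    · rw [Nat.cast_sub (by omega)]; push_cast; linarith
    · rw [Nat.cast_sub (by omega)]; push_cast; linarith

theorem cover (m n : ℕ) (hm : 0 < m) (hn : 0 < n) :
    (⋃ q : Fin m × Fin n × Bool, S (sg q.2.2) (co q.1 q.2.1 q.2.2) 1) =
      {p : ℝ × ℝ | 0 ≤ p.1 ∧ p.1 ≤ m ∧ 0 ≤ p.2 ∧ p.2 ≤ n} := by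
  ext ⟨x, y⟩
  simp only [Set.mem_iUnion, S, Set.mem_ofPred_eq]
  constructor
  · rintro ⟨⟨⟨i, hi⟩, ⟨j, hj⟩, b⟩, h1, h2, h3⟩
    have hi0 : (0 : ℝ) ≤ i := Nat.cast_nonneg i
    have hj0 : (0 : ℝ) ≤ j := Nat.cast_nonneg j
    have hi1 : (i : ℝ) + 1 ≤ m := by exact_mod_cast hi
    have hj1 : (j : ℝ) + 1 ≤ n := by exact_mod_cast hj
    cases b
    · simp only [sg, co, Bool.false_eq_true, if_false] at h1 h2 h3
      refine ⟨by linarith, by linarith, by linarith, by linarith⟩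
    · simp only [sg, co, if_true] at h1 h2 h3
      refine ⟨by linarith, by linarith, by linarith, by linarith⟩
  · rintro ⟨hx, hx', hy, hy'⟩
    obtain ⟨i, hi, hi1, hi2⟩ := idx m hm x hx hx'
    obtain ⟨j, hj, hj1, hj2⟩ := idx n hn y hy hy'
    by_cases h : x + y ≤ i + j + 1
    · refine ⟨(⟨i, hi⟩, ⟨j, hj⟩, true), ?_⟩
      simp only [sg, co, if_true]
      refine ⟨by linarith, by linarith, by linarith⟩
    · push Not at h
      refine ⟨(⟨i, hi⟩, ⟨j, hj⟩, false), ?_⟩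
      simp only [sg, co, Bool.false_eq_true, if_false]
      refine ⟨by linarith, by linarith, by linarith⟩

theorem cell {i j : ℕ} {b : Bool} {p : ℝ × ℝ} (h : p ∈ interior (S (sg b) (co i j b) 1)) :
    (i : ℝ) < p.1 ∧ p.1 < i + 1 ∧ (j : ℝ) < p.2 ∧ p.2 < j + 1 ∧
      (b = true → p.1 + p.2 < i + j + 1) ∧ (b = false → (i : ℝ) + j + 1 < p.1 + p.2) := by
  obtain ⟨a1, a2, a3⟩ := interior_S (sg_or _) _ _ h
  cases b
  · simp only [sg, co, Bool.false_eq_true, if_false] at a1 a2 a3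
    refine ⟨by linarith, by linarith, by linarith, by linarith, by simp, fun _ => by linarith⟩
  · simp only [sg, co, if_true] at a1 a2 a3
    refine ⟨by linarith, by linarith, by linarith, by linarith, fun _ => by linarith, by simp⟩

theorem disj {m n : ℕ} (q r : Fin m × Fin n × Bool) (hqr : q ≠ r) {p : ℝ × ℝ}
    (h1 : p ∈ interior (S (sg q.2.2) (co q.1 q.2.1 q.2.2) 1))
    (h2 : p ∈ interior (S (sg r.2.2) (co r.1 r.2.1 r.2.2) 1)) : False := by
  obtain ⟨⟨i, hi⟩, ⟨j, hj⟩, b⟩ := q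
  obtain ⟨⟨i', hi'⟩, ⟨j', hj'⟩, b'⟩ := r
  obtain ⟨a1, a2, a3, a4, a5, a6⟩ := cell h1
  obtain ⟨b1, b2, b3, b4, b5, b6⟩ := cell h2
  simp only at a1 a2 a3 a4 a5 a6 b1 b2 b3 b4 b5 b6
  have e1 : (i : ℝ) < i' + 1 := by linarith
  have e2 : (i' : ℝ) < i + 1 := by linarith
  have e3 : (j : ℝ) < j' + 1 := by linarith
  have e4 : (j' : ℝ) < j + 1 := by linarith
  have e1' : i < i' + 1 := by exact_mod_cast e1
  have e2' : i' < i + 1 := by exact_mod_cast e2
  have e3' : j < j' + 1 := by exact_mod_cast e3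
  have e4' : j' < j + 1 := by exact_mod_cast e4
  obtain rfl : i = i' := by omega
  obtain rfl : j = j' := by omega
  cases b <;> cases b'
  · exact hqr rfl
  · have := a6 rfl
    have := b5 rfl
    linarith
  · have := a5 rfl
    have := b6 rfl
    linarith
  · exact hqr rfl

theorem t_PARA : Q16.SQ.S_PARA := by
  intro a b c m n hm hn O u v hT hS
  obtain ⟨Φ, hΦ⟩ := coord2 O u v hT
  let Q : Fin m × Fin n × Bool → Fin 3 → E2 := fun q l =>
    sg q.2.2 • (![0, u, v] : Fin 3 → E2) l + Φ (co q.1 q.2.1 q.2.2)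
  let eq : Fin (Fintype.card (Fin m × Fin n × Bool)) ≃ Fin m × Fin n × Bool :=
    (Fintype.equivFin _).symm
  have hee : ∀ b : Bool, |sg b| = 1 := fun b => by
    rcases sg_or b with h | h <;> rw [h] <;> simp
  have hQ : ∀ q, TriSet (Q q) = Φ '' S (sg q.2.2) (co q.1 q.2.1 q.2.2) 1 := by
    intro q
    apply tri (T := fun _ => O) (u := u) (v := v) hΦ (sg_or _) one_pos
    · simp [Q]
    · simp only [Q, hΦ, Matrix.cons_val_one, Matrix.cons_val_zero]
      module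
    · simp only [Q, hΦ, Matrix.cons_val]
      module
  have hPar : Q16.SQ.Par O ((m : ℝ) • u) ((n : ℝ) • v) =
      Φ '' {p : ℝ × ℝ | 0 ≤ p.1 ∧ p.1 ≤ m ∧ 0 ≤ p.2 ∧ p.2 ≤ n} := by
    have hm' : (0 : ℝ) < m := by exact_mod_cast hm
    have hn' : (0 : ℝ) < n := by exact_mod_cast hn
    ext z
    simp only [Q16.SQ.Par, Set.mem_ofPred_eq, Set.mem_image]
    constructor
    · rintro ⟨s, t, hs, hs', ht, ht', rfl⟩
      refine ⟨(s * m, t * n), ⟨by positivity, ?_, by positivity, ?_⟩, ?_⟩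
      · nlinarith
      · nlinarith
      · rw [hΦ]
        module
    · rintro ⟨⟨x, y⟩, ⟨hx, hx', hy, hy'⟩, rfl⟩
      refine ⟨x / m, y / n, by positivity, ?_, by positivity, ?_, ?_⟩
      · rw [div_le_one hm']; exact hx'
      · rw [div_le_one hn']; exact hy'
      · rw [hΦ, smul_smul, smul_smul, div_mul_cancel₀ _ hm'.ne', div_mul_cancel₀ _ hn'.ne', add_assoc]
  have hdist : ∀ (q : Fin m × Fin n × Bool) (k l : Fin 3),
      dist (Q q k) (Q q l) = ‖(![0, u, v] : Fin 3 → E2) k - (![0, u, v] : Fin 3 → E2) l‖ := by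
    intro q k l
    simp only [Q]
    rw [dist_add_right, dist_eq_norm, ← smul_sub, norm_smul, Real.norm_eq_abs, hee, one_mul]
  refine ⟨_, fun i => Q (eq i), ?_, ?_, ?_, ?_⟩
  · intro i
    rw [affineIndependent_iff_linearIndependent_vsub ℝ _ 0]
    have h1 := (affineIndependent_iff_linearIndependent_vsub ℝ _ 0).1 hT
    have hne : sg (eq i).2.2 ≠ 0 := by
      rcases sg_or (eq i).2.2 with h | h <;> rw [h] <;> norm_num
    have h2 := h1.units_smul (fun _ => Units.mk0 _ hne)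
    have h3 : (fun l : {x : Fin 3 // x ≠ 0} => (Q (eq i) l -ᵥ Q (eq i) 0 : E2)) =
        (fun _ : {x : Fin 3 // x ≠ 0} => Units.mk0 _ hne) •
          fun l : {x : Fin 3 // x ≠ 0} => ((![0, u, v] : Fin 3 → E2) l -ᵥ (![0, u, v] : Fin 3 → E2) 0 : E2) := by
      funext l
      simp [Q, vsub_eq_sub, Units.smul_def]
    rw [h3]
    exact h2
  · intro i
    rw [hdist, hdist, hdist]
    have e1 : ‖(![0, u, v] : Fin 3 → E2) 1 - (![0, u, v] : Fin 3 → E2) 2‖ = ‖u - v‖ := by simp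
    have e2 : ‖(![0, u, v] : Fin 3 → E2) 0 - (![0, u, v] : Fin 3 → E2) 2‖ = ‖v‖ := by simp
    have e3 : ‖(![0, u, v] : Fin 3 → E2) 0 - (![0, u, v] : Fin 3 → E2) 1‖ = ‖u‖ := by simp
    rw [e1, e2, e3]
    unfold Q16.SQ.Sd at hS ⊢
    rcases hS with ⟨h1, h2, h3⟩ | ⟨h1, h2, h3⟩ | ⟨h1, h2, h3⟩ | ⟨h1, h2, h3⟩ | ⟨h1, h2, h3⟩ | ⟨h1, h2, h3⟩
    · exact Or.inr (Or.inr (Or.inr (Or.inr (Or.inr ⟨h3, h2, h1⟩))))
    · exact Or.inr (Or.inr (Or.inr (Or.inl ⟨h3, h2, h1⟩)))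
    · exact Or.inr (Or.inr (Or.inr (Or.inr (Or.inl ⟨h3, h2, h1⟩))))
    · exact Or.inr (Or.inl ⟨h3, h2, h1⟩)
    · exact Or.inr (Or.inr (Or.inl ⟨h3, h2, h1⟩))
    · exact Or.inl ⟨h3, h2, h1⟩
  · rw [hPar, ← cover m n hm hn, Set.image_iUnion, ← eq.surjective.iUnion_comp]
    exact Set.iUnion_congr fun i => hQ _
  · intro i j hij
    rw [hQ, hQ, ← Φ.image_interior, ← Φ.image_interior]
    rw [Set.disjoint_image_iff Φ.injective, Set.disjoint_left]
    intro p h1 h2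
    exact disj _ _ (fun h => hij (eq.injective h)) h1 h2

end Pool.Agent.Q223.SQP
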