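import Pool.Agent.Q16.SQ.Stm2

/-!
# Project SQ, job SH5
-/

set_option autoImplicit false

namespace Pool.Agent.Q223.SQ

open Q16.SQ Pool.Agent.Helper549.Tri

theorem alg5 {N R d sa sb q cb l0 l1 l2 S0 S1 S2 : ℝ} (hR : 0 < R) (hd : 0 < d) (hsa : 0 < sa)
    (hsb : 0 < sb) (hq : 0 < q) (hq2 : q ^ 2 = 3) (h1 : q * cb = 2 * sa + sb)
    (h2 : sa ^ 2 + sa * sb + sb ^ 2 = 3 / 4)
    (e0 : l0 = R * sa) (e1 : l1 = R * sb) (e2 : l2 = R * (q / 2))
    (f0 : S0 = d * (sa + sb)) (f1 : S1 = d * (2 * sb * cb)) (f2 : S2 = d * sa)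
    (area : N * (l0 * l1 * (q / 2)) = S0 * S1 * sa) :
    l2 ^ 2 = l0 ^ 2 + l0 * l1 + l1 ^ 2 ∧ ∃ r : ℝ, 0 < r ∧ S0 = r * ((l0 + l1) * l2) ∧
      S1 = r * (l1 * (2 * l0 + l1)) ∧ S2 = r * (l0 * l2) ∧
      N = r ^ 2 * ((l0 + l1) * (2 * l0 + l1)) := by
  subst e0 e1 e2 f0 f1 f2
  have hcb : cb = (2 * sa + sb) * q / 3 := by
    have : q * (q * cb) = q * (2 * sa + sb) := by rw [h1]
    have h3 : 3 * cb = q * (2 * sa + sb) := by rw [← this, ← hq2]; ring
    linarith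
  subst hcb
  refine ⟨?_, 2 * d / (R ^ 2 * q), by positivity, ?_, ?_, ?_, ?_⟩
  · have : (R * (q / 2)) ^ 2 = R ^ 2 * (q ^ 2 / 4) := by ring
    rw [this, hq2]
    have h3 : (R * sa) ^ 2 + R * sa * (R * sb) + (R * sb) ^ 2 =
        R ^ 2 * (sa ^ 2 + sa * sb + sb ^ 2) := by ring
    rw [h3, h2]
  · field_simp
  · have h3 : d * (2 * sb * ((2 * sa + sb) * q / 3)) =
        d * (2 * sb * ((2 * sa + sb) * q / q ^ 2)) := by rw [hq2]
    rw [h3]
    field_simp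
  · field_simp
  · have h3 : N * (R ^ 2 * (sa * sb * q)) =
        4 / 3 * d ^ 2 * (sa + sb) * sb * (2 * sa + sb) * q * sa := by
      linear_combination 2 * area
    have h4 : N * R ^ 2 = 4 / q ^ 2 * d ^ 2 * (sa + sb) * (2 * sa + sb) := by
      rw [hq2]
      have h5 : (sa * sb * q) * (N * R ^ 2) =
          (sa * sb * q) * (4 / 3 * d ^ 2 * (sa + sb) * (2 * sa + sb)) := by
        linear_combination h3
      exact mul_left_cancel₀ (by positivity) h5
    have h6 : N = 4 / q ^ 2 * d ^ 2 * (sa + sb) * (2 * sa + sb) / R ^ 2 := by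
      rw [← h4]
      field_simp
    rw [h6]
    field_simp
    ring

theorem t_SH5 : S_SH5 := by
  intro N ℓ θ S A κ β D hκ
  have a0 : A 0 = 2 * θ 0 + θ 1 := by
    rw [D.angles 0, hκ]
    simp [K5, Fin.sum_univ_three]
  have a1 : A 1 = 2 * θ 1 := by
    rw [D.angles 1, hκ]
    simp [K5, Fin.sum_univ_three]
  have a2 : A 2 = θ 0 := by
    rw [D.angles 2, hκ]
    simp [K5, Fin.sum_univ_three]
  have hs := D.Asum
  have ht := D.tsum
  have hab : θ 1 = Real.pi / 3 - θ 0 := by linarith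
  have h2 : θ 2 = Real.pi - Real.pi / 3 := by linarith
  have hp0 := D.tpos 0
  have hp1 := D.tpos 1
  have hp2 := D.tpos 2
  have hsa : 0 < Real.sin (θ 0) := Real.sin_pos_of_pos_of_lt_pi hp0 (by linarith)
  have hsb : 0 < Real.sin (θ 1) := Real.sin_pos_of_pos_of_lt_pi hp1 (by linarith)
  have hq : 0 < Real.sqrt 3 := by positivity
  have hq2 : Real.sqrt 3 ^ 2 = 3 := Real.sq_sqrt (by norm_num)
  have hs2 : Real.sin (θ 2) = Real.sqrt 3 / 2 := by
    rw [h2, Real.sin_pi_sub, Real.sin_pi_div_three]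
  have hsb' : Real.sin (θ 1) = Real.sqrt 3 / 2 * Real.cos (θ 0) - 1 / 2 * Real.sin (θ 0) := by
    rw [hab, Real.sin_sub, Real.sin_pi_div_three, Real.cos_pi_div_three]
  have hcb' : Real.cos (θ 1) = 1 / 2 * Real.cos (θ 0) + Real.sqrt 3 / 2 * Real.sin (θ 0) := by
    rw [hab, Real.cos_sub, Real.sin_pi_div_three, Real.cos_pi_div_three]
  have hsc := Real.sin_sq_add_cos_sq (θ 0)
  have hA0 : Real.sin (A 0) = Real.sin (θ 0) + Real.sin (θ 1) := by
    rw [a0, show 2 * θ 0 + θ 1 = θ 0 + Real.pi / 3 by linarith, Real.sin_add,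
      Real.sin_pi_div_three, Real.cos_pi_div_three, hsb']
    ring
  have hA1 : Real.sin (A 1) = 2 * Real.sin (θ 1) * Real.cos (θ 1) := by
    rw [a1, Real.sin_two_mul]
  have hl := D.lpos
  have hS := D.Spos
  have e0 := D.sinet 0 2
  have e1 := D.sinet 1 2
  have f0 := D.sineT 0 2
  have f1 := D.sineT 1 2
  rw [hs2] at e0 e1
  rw [a2, hA0] at f0
  rw [a2, hA1] at f1
  have area := D.area
  rw [a2, hs2] at area
  have hne : Real.sqrt 3 ≠ 0 := hq.ne'
  refine alg5 (R := 2 * ℓ 2 / Real.sqrt 3) (d := S 2 / Real.sin (θ 0)) (q := Real.sqrt 3)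
    (sa := Real.sin (θ 0)) (sb := Real.sin (θ 1)) (cb := Real.cos (θ 1))
    (div_pos (by linarith [hl 2]) hq) (div_pos (hS 2) hsa) hsa hsb hq hq2 ?_ ?_ ?_ ?_ ?_ ?_ ?_ ?_ area
  · rw [hcb', hsb']
    linear_combination (Real.sin (θ 0) / 2) * hq2
  · rw [hsb']
    linear_combination (3 / 4) * hsc + (Real.cos (θ 0) ^ 2 / 4) * hq2
  · field_simp
    linarith
  · field_simp
    linarith
  · field_simp
  · field_simp
    linarith
  · field_simp
    linarith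
  · field_simp

end Pool.Agent.Q223.SQ
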