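import Mathlib
import Pool.Agent.Q16.SQ.Stm5
import Pool.Agent.Helper549.Tri.Basic

/-! JOB DDT of project SQ (helper16), MP_a03157_co: orientation of the image of `T`. -/

set_option autoImplicit false
noncomputable section
open scoped BigOperators ComplexConjugate
open Pool.Agent.Helper549.Tri Pool.Agent.Helper549.Tri.Basic Q16.SQ

namespace Pool.Agent.Q223.SQDDT

/-- the function of the line with direction `u` and level `s` -/
def HH (Φ : ℂ → ℂ) (u : ℂ) (s : ℝ) (z : ℂ) : ℝ :=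
  (Φ (((conj u * z).re : ℝ) : ℂ)).re * cr (Φ (Complex.I * (s : ℂ) * u)) (Φ u)

theorem Phi_zero {M : ℕ} {j : ℤ} {Φ : ℂ → ℂ} (h : Semi M j Φ) : Φ 0 = 0 := by
  have h1 := h.1 0 0
  rw [add_zero] at h1
  have h2 : Φ 0 + 0 = Φ 0 + Φ 0 := by rw [add_zero]; exact h1
  exact (add_left_cancel h2).symm

theorem Phi_neg {M : ℕ} {j : ℤ} {Φ : ℂ → ℂ} (h : Semi M j Φ) (z : ℂ) : Φ (-z) = -Φ z := by
  have h1 := h.1 z (-z)
  rw [add_neg_cancel, Phi_zero h] at h1
  exact eq_neg_of_add_eq_zero_right h1.symm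

theorem HH_even {M : ℕ} {j : ℤ} {Φ : ℂ → ℂ} (h : Semi M j Φ) (u : ℂ) (s : ℝ) (z : ℂ) :
    HH Φ (-u) (-s) z = HH Φ u s z := by
  unfold HH
  have e1 : Complex.I * ((-s : ℝ) : ℂ) * (-u) = Complex.I * (s : ℂ) * u := by
    push_cast
    ring
  have e2 : (((conj (-u) * z).re : ℝ) : ℂ) = -(((conj u * z).re : ℝ) : ℂ) := by
    rw [map_neg, neg_mul, Complex.neg_re]
    push_cast
    rfl
  rw [e1, e2, Phi_neg h, Phi_neg h]
  simp only [cr, Complex.neg_re, Complex.neg_im]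
  ring

/-- the image of a point of a line -/
theorem Phi_point {M : ℕ} {j : ℤ} {Φ : ℂ → ℂ} (h : Semi M j Φ) (q : ℤ) (u p : ℂ) (s : ℝ)
    (hu : u = rt M q) (hn : ‖u‖ = 1) (hs : cr u p = s) :
    Φ p = Φ u * (((Φ (((conj u * p).re : ℝ) : ℂ)).re : ℝ) : ℂ) + Φ (Complex.I * (s : ℂ) * u) := by
  have e1 : conj u * p = (((conj u * p).re : ℝ) : ℂ) + Complex.I * (s : ℂ) := by
    apply Complex.ext
    · simp
    · rw [← hs]
      simp [cr]
      ring
  have e2 : u * conj u = 1 := by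
    rw [Complex.mul_conj, Complex.normSq_eq_norm_sq, hn]
    simp
  have e3 : p = u * (((conj u * p).re : ℝ) : ℂ) + Complex.I * (s : ℂ) * u := by
    calc p = u * conj u * p := by rw [e2, one_mul]
      _ = u * (conj u * p) := by ring
      _ = u * ((((conj u * p).re : ℝ) : ℂ) + Complex.I * (s : ℂ)) := by rw [← e1]
      _ = _ := by ring
  have e4 : Φ u = rt M (j * q) := by
    have h1 := h.2.2.1 q 1
    rw [mul_one, h.2.2.2.2, mul_one, ← hu] at h1
    exact h1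
  have e5 : ∀ x : ℝ, Φ (u * (x : ℂ)) = Φ u * (((Φ (x : ℂ)).re : ℝ) : ℂ) := by
    intro x
    have h1 := h.2.2.1 q (x : ℂ)
    rw [← hu, ← e4] at h1
    rw [h1]
    congr 1
    apply Complex.ext
    · simp
    · rw [h.2.2.2.1 x]
      simp
  conv_lhs => rw [e3]
  rw [h.1, e5]

theorem side_cr {M : ℕ} {j : ℤ} {Φ : ℂ → ℂ} (h : Semi M j Φ) (v : Fin 3 → ℂ) (hv : 0 < dd v)
    (k : Fin 3) (q : ℤ) (hq : dir v k = rt M q) :
    HH Φ (dir v k) (lev v k) (v (k + 2)) - HH Φ (dir v k) (lev v k) (v (k + 1)) =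
      cr (Φ (v (k + 1))) (Φ (v (k + 2))) := by
  have hn := norm_dir v hv k
  have hs2 : cr (dir v k) (v (k + 2)) = lev v k := by
    have h1 := sd_eq v hv k
    have h2 : v (k + 2) = v (k + 1) + (len v k : ℂ) * dir v k := by
      rw [← h1]
      unfold sd
      ring
    rw [h2]
    unfold lev
    simp only [cr, Complex.add_re, Complex.add_im, Complex.mul_re, Complex.mul_im,
      Complex.ofReal_re, Complex.ofReal_im]
    ring
  rw [Phi_point h q (dir v k) (v (k + 1)) (lev v k) hq hn rfl,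
    Phi_point h q (dir v k) (v (k + 2)) (lev v k) hq hn hs2]
  unfold HH
  generalize (Φ (((conj (dir v k) * v (k + 2)).re : ℝ) : ℂ)).re = y
  generalize (Φ (((conj (dir v k) * v (k + 1)).re : ℝ) : ℂ)).re = x
  generalize Φ (Complex.I * (lev v k : ℂ) * dir v k) = b
  generalize Φ (dir v k) = w
  simp only [cr, Complex.add_re, Complex.add_im, Complex.mul_re, Complex.mul_im,
    Complex.ofReal_re, Complex.ofReal_im]
  ring

/-- shoelace -/
theorem dd_eq (v : Fin 3 → ℂ) : dd v = ∑ k : Fin 3, cr (v (k + 1)) (v (k + 2)) := by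
  rw [Fin.sum_univ_three]
  simp only [e01, e02, e11, e12, e21, e22, dd, cr, Complex.sub_re, Complex.sub_im]
  ring

theorem side_sum {M : ℕ} {j : ℤ} {Φ : ℂ → ℂ} (h : Semi M j Φ) (v : Fin 3 → ℂ) (hv : 0 < dd v)
    (hq : ∀ k, ∃ q : ℤ, dir v k = rt M q) :
    ∑ k : Fin 3, (HH Φ (dir v k) (lev v k) (v (k + 2)) - HH Φ (dir v k) (lev v k) (v (k + 1))) =
      dd (fun m => Φ (v m)) := by
  rw [dd_eq]
  apply Finset.sum_congr rfl
  intro k _
  obtain ⟨q, hq⟩ := hq k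
  exact side_cr h v hv k q hq

theorem t_DDT (h1 : S_LINESUM) (h2 : S_IMG) : S_DDT := by
  intro N T t τ n a hD hN j Φ hj hΦ hvf
  have hpos := (h2 hD j Φ hj hΦ hvf).1
  obtain ⟨hDis, hn, -, -, -, -, hdt, hdT⟩ := hD
  have hsum := h1 hDis (HH Φ) (HH_even hΦ)
  rw [side_sum hΦ T hDis.ccwT hdT] at hsum
  rw [← hsum]
  have e1 : ∀ i, ∑ k : Fin 3, (HH Φ (dir (t i) k) (lev (t i) k) (t i (k + 2)) -
      HH Φ (dir (t i) k) (lev (t i) k) (t i (k + 1))) = dd (fun m => Φ (t i m)) :=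
    fun i => side_sum hΦ (t i) (hDis.ccwt i) (hdt i)
  simp_rw [e1]
  apply Finset.sum_pos (fun i _ => hpos i)
  exact ⟨⟨0, hN⟩, Finset.mem_univ _⟩

end Pool.Agent.Q223.SQDDT
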