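import Pool.Agent.Q16.XP.Stm

/-!
# Project XP, job B3
-/

set_option autoImplicit false

namespace Pool.Agent.Q223.XP

open Q16.XP

theorem minFac_mul (p a b : ℕ) (ha : 1 < a) (hb : 1 < b) (hpa : a.minFac = p)
    (hpb : b.minFac = p) : (a * b).minFac = p := by
  have hab : a * b ≠ 1 := by
    intro h
    have := Nat.eq_one_of_mul_eq_one_right h
    omega
  have hq : (a * b).minFac.Prime := Nat.minFac_prime hab
  apply le_antisymm
  · have h1 : p ∣ a * b := by
      rw [← hpa]
      exact (Nat.minFac_dvd a).mul_right b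
    apply Nat.minFac_le_of_dvd _ h1
    rw [← hpa]
    exact (Nat.minFac_prime (by omega)).two_le
  · rcases (Nat.Prime.dvd_mul hq).1 (Nat.minFac_dvd (a * b)) with h | h
    · rw [← hpa]
      exact Nat.minFac_le_of_dvd hq.two_le h
    · rw [← hpb]
      exact Nat.minFac_le_of_dvd hq.two_le h

theorem ex_mul (p a b : ℕ) (ha : 1 < a) (hb : 1 < b) (hpa : a.minFac = p)
    (hpb : b.minFac = p) : ex (a * b) = ex a + ex b := by
  unfold ex
  rw [minFac_mul p a b ha hb hpa hpb, hpa, hpb, Nat.factorization_mul (by omega) (by omega)]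
  rfl

theorem ex_pos (a : ℕ) (ha : 1 < a) : 0 < ex a := by
  unfold ex
  exact (Nat.minFac_prime (by omega)).factorization_pos_of_dvd (by omega) (Nat.minFac_dvd a)

theorem fac (p t u : ℕ) (hp : p.Prime) (hu : ¬ p ∣ u) : (p ^ t * u).factorization p = t := by
  have hu0 : u ≠ 0 := by
    rintro rfl
    exact hu (dvd_zero p)
  rw [Nat.factorization_mul (pow_ne_zero _ hp.ne_zero) hu0]
  show (p ^ t).factorization p + u.factorization p = t
  rw [hp.factorization_pow, Nat.factorization_eq_zero_of_not_dvd hu]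
  simp

theorem key (p α β : ℕ) (hp : p.Prime) (hα : 0 < α) (hβ : 0 < β)
    (ht : α.factorization p = β.factorization p)
    (hmod : α / p ^ α.factorization p % p ^ 2 = β / p ^ β.factorization p % p ^ 2) :
    (p ≠ 2 → dg p (α + β) = 2 * dg p α % p ∧ 0 < dg p α ∧ dg p α < p) ∧
    (p = 2 → (α + β).factorization p = α.factorization p + 1) := by
  have h1 := Nat.ordProj_mul_ordCompl_eq_self α p
  have h2 := Nat.ordProj_mul_ordCompl_eq_self β p
  have h3 : ¬ p ∣ α / p ^ α.factorization p := Nat.not_dvd_ordCompl hp hα.ne'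
  have h4 : ¬ p ∣ β / p ^ β.factorization p := Nat.not_dvd_ordCompl hp hβ.ne'
  unfold dg
  rw [← ht] at h2 h4 hmod
  set t := α.factorization p with htdef
  set α' := α / p ^ t with hα'
  set β' := β / p ^ t with hβ'
  have h5 : α' % p = β' % p := by
    have h6 : p ∣ p ^ 2 := dvd_pow_self p two_ne_zero
    rw [← Nat.mod_mod_of_dvd α' h6, hmod, Nat.mod_mod_of_dvd β' h6]
  have h6 : α + β = p ^ t * (α' + β') := by rw [mul_add, h1, h2]
  constructor
  · intro hp2
    have h7 : (α' + β') % p = 2 * (α' % p) % p := by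
      rw [Nat.add_mod, ← h5, ← two_mul]
    have h8 : ¬ p ∣ α' + β' := by
      intro h9
      have h10 : p ∣ 2 * (α' % p) := by
        rw [Nat.dvd_iff_mod_eq_zero] at h9 ⊢
        rw [← h7]
        exact h9
      rcases (Nat.Prime.dvd_mul hp).1 h10 with h11 | h11
      · exact hp2 ((Nat.prime_dvd_prime_iff_eq hp Nat.prime_two).1 h11)
      · apply h3
        rw [Nat.dvd_iff_mod_eq_zero]
        have := Nat.eq_zero_of_dvd_of_lt h11 (Nat.mod_lt _ hp.pos)
        exact this
    refine ⟨?_, ?_, Nat.mod_lt _ hp.pos⟩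
    · rw [h6, fac p t _ hp h8, Nat.mul_div_cancel_left _ (pow_pos hp.pos t), h7]
    · rw [Nat.pos_iff_ne_zero]
      intro h9
      exact h3 (Nat.dvd_of_mod_eq_zero h9)
  · intro hp2
    subst hp2
    have h7 : ¬ 2 ∣ (α' + β') / 2 := by
      norm_num at hmod
      omega
    have h8 : α' + β' = 2 * ((α' + β') / 2) := by omega
    rw [h6, h8, ← mul_assoc, ← pow_succ, fac 2 (t + 1) _ Nat.prime_two h7]

theorem log_two_mul (n : ℕ) (hn : 0 < n) : Nat.log 2 (2 * n) = Nat.log 2 n + 1 := by
  rw [mul_comm]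
  exact Nat.log_mul_base (by norm_num) hn.ne'

theorem t_B3 : S_B3 := by
  intro p a b hp ha hb hpa hpb ht hmod
  have hα := ex_pos a ha
  have hβ := ex_pos b hb
  obtain ⟨k1, k2⟩ := key p (ex a) (ex b) hp hα hβ ht hmod
  have e1 := ex_mul p a b ha hb hpa hpb
  have e2 := minFac_mul p a b ha hb hpa hpb
  rintro ⟨q3, q4, q5⟩
  unfold c3 at q3
  unfold c4 at q4
  unfold c5 at q5
  rw [e1, e2, hpa] at q3 q4 q5
  by_cases hp2 : p = 2
  · rw [k2 hp2] at q5
    omega
  · obtain ⟨k3, k4, k5⟩ := k1 hp2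
    rw [k3] at q3 q4
    set d := dg p (ex a) with hd
    have hodd : ¬ 2 ∣ p := by
      intro h
      exact hp2 ((Nat.prime_dvd_prime_iff_eq Nat.prime_two hp).1 h).symm
    rcases Nat.lt_or_ge (2 * d) p with h | h
    · rw [Nat.mod_eq_of_lt h, log_two_mul d k4] at q3
      omega
    · have h1 : 2 * d % p = 2 * d - p := by
        rw [Nat.mod_eq_sub_mod h, Nat.mod_eq_of_lt (by omega)]
      rw [h1] at q4
      have h2 : p - (2 * d - p) = 2 * (p - d) := by omega
      rw [h2, log_two_mul (p - d) (by omega)] at q4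
      omega

end Pool.Agent.Q223.XP
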