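import Pool.Agent.Q17.ML2.Stm
import Pool.Agent.TH111.J3097

/-!
# Project CA, job NF: Kummer theory over the normal closure
-/

set_option autoImplicit false

namespace Pool.Agent.Q223.CA_NF

open Pool.Agent.Q17.ML2 Pool.Agent.TH111.J3097

theorem t_NF : S_NF := by
  intro K Ω _ _ _ _ _ M _ L hML α s hα hs hsM hL hne
  classical
  by_contra hcon
  push Not at hcon
  apply hne
  have hac : IsAlgClosed Ω := IsAlgClosure.isAlgClosed K
  have hnorm : Normal K Ω := IsAlgClosure.normal K Ω
  have halg : Algebra.IsAlgebraic K Ω := IsAlgClosure.isAlgebraic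
  set N : IntermediateField K Ω := IntermediateField.normalClosure K M Ω with hN
  have halgN : Algebra.IsAlgebraic N Ω := Algebra.IsAlgebraic.tower_top (K := K) N
  have h2 : (2 : N) ≠ 0 := by
    have : CharZero K := inferInstance
    have : CharZero N := charZero_of_injective_algebraMap (algebraMap K N).injective
    exact two_ne_zero
  have hmemN : ∀ (φ : M →ₐ[K] Ω) (x : M), φ x ∈ N := fun φ x =>
    (AlgHom.fieldRange_le_normalClosure φ) ⟨x, rfl⟩
  have hex : ∀ φ : M →ₐ[K] Ω, ∃ t : Ω, t ^ 2 = φ α := fun φ =>
    IsAlgClosed.exists_pow_nat_eq _ two_pos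
  choose η hη using hex
  have hsq : ∀ S : Finset (M →ₐ[K] Ω), S.Nonempty →
      ¬ IsSquare (∏ φ ∈ S, (⟨φ α, hmemN φ α⟩ : N)) := by
    rintro S hS ⟨b, hb⟩
    apply hcon S hS b b.2
    have h := congrArg (algebraMap N Ω) hb
    rw [map_prod, map_mul] at h
    rw [sq]
    exact h
  have hdeg := finrank_mq' (V := N) (Ω := Ω) (η := η) (w := fun φ => ⟨φ α, hmemN φ α⟩) h2
    (fun φ => hη φ) hsq
  have hcard : Fintype.card (M →ₐ[K] Ω) = Module.finrank K M := AlgHom.card K M Ω
  have hroot : ∀ (E : IntermediateField K Ω) (u v : Ω), u ^ 2 = v ^ 2 → v ∈ E → u ∈ E := by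
    intro E u v h hv
    rcases sq_eq_sq_iff_eq_or_eq_neg.1 h with rfl | rfl
    · exact hv
    · exact neg_mem hv
  have hsL : s ∈ L := by
    rw [hL]
    exact (le_sup_right : IntermediateField.adjoin K {s} ≤ _)
      (IntermediateField.mem_adjoin_simple_self K s)
  have hNC : (IntermediateField.adjoin N (Set.range η)).restrictScalars K =
      IntermediateField.normalClosure K L Ω := by
    apply le_antisymm
    · have hNL : N ≤ IntermediateField.normalClosure K L Ω := by
        rw [hN, IntermediateField.normalClosure_def'', IntermediateField.normalClosure_def'']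
        exact iSup_mono fun σ => IntermediateField.map_mono _ hML
      have h3 : IntermediateField.adjoin N (Set.range η) ≤
          IntermediateField.extendScalars hNL := by
        rw [IntermediateField.adjoin_le_iff]
        rintro _ ⟨φ, rfl⟩
        show η φ ∈ IntermediateField.normalClosure K L Ω
        set σ : Ω →ₐ[K] Ω := φ.liftNormal Ω with hσ
        apply hroot _ (η φ) (σ s)
        · rw [hη, ← map_pow, hs]
          exact (φ.liftNormal_commutes Ω α).symm
        · exact (AlgHom.fieldRange_le_normalClosure (σ.comp L.val)) ⟨⟨s, hsL⟩, rfl⟩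
      exact h3
    · rw [IntermediateField.normalClosure_def'']
      apply iSup_le
      intro σ
      rw [hL, IntermediateField.map_sup, IntermediateField.adjoin_map, Set.image_singleton]
      apply sup_le
      · rintro _ ⟨m, hm, rfl⟩
        have h6 : σ m ∈ N := hmemN ((σ : Ω →ₐ[K] Ω).comp M.val) ⟨m, hm⟩
        exact IntermediateField.algebraMap_mem (IntermediateField.adjoin N (Set.range η)) ⟨σ m, h6⟩
      · rw [IntermediateField.adjoin_simple_le_iff]
        show σ s ∈ (IntermediateField.adjoin N (Set.range η)).restrictScalars K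
        apply hroot _ (σ s) (η ((σ : Ω →ₐ[K] Ω).comp M.val))
        · rw [hη, ← map_pow, hs]
          rfl
        · exact IntermediateField.subset_adjoin N _ ⟨_, rfl⟩
  rw [← hNC, ← hcard, ← hdeg]
  have h7 := Module.finrank_mul_finrank K N (IntermediateField.adjoin N (Set.range η))
  rw [mul_comm, h7]
  rfl

end Pool.Agent.Q223.CA_NF
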