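import Pool.Agent.Q127.DJ.Stm

/-!
# Project DJ, job JOI: limits of averages are joinings
-/

set_option autoImplicit false

namespace Pool.Agent.Q223.DJ_JOI

open MeasureTheory Filter Topology Set Pool.Agent.Q127.DJ
open scoped BoundedContinuousFunction ENNReal

abbrev X := ℕ → ℕ
abbrev Z := X × X

theorem S_cont : Continuous S := by
  unfold S
  exact continuous_pi fun n => continuous_apply (n + 1)

/-- the product of the shifts -/
def W : Z → Z := Prod.map S S

theorem W_cont : Continuous W := S_cont.prodMap S_cont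

theorem Wn_cont (n : ℕ) : Continuous (W^[n]) := W_cont.iterate n

theorem Sn (n : ℕ) (x : X) : S^[n] x = fun k => x (k + n) := by
  induction n generalizing x with
  | zero => rfl
  | succ n ih =>
    rw [Function.iterate_succ_apply, ih]
    funext k
    show x (k + n + 1) = x (k + (n + 1))
    rw [add_assoc]

theorem Wn (n : ℕ) (p : Z) : W^[n] p = (S^[n] p.1, S^[n] p.2) := by
  unfold W
  rw [Prod.map_iterate]
  rfl

/-- the averages -/
noncomputable def R (Q : ℕ → Measure Z) (T : ℕ → ℕ) (n : ℕ) : Measure Z :=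
  ((n + 1 : ℕ) : ℝ≥0∞)⁻¹ • ∑ i ∈ Finset.range (n + 1), (Q (n + 1)).map (W^[T (n + 1) + i])

theorem R_apply (Q : ℕ → Measure Z) (T : ℕ → ℕ) (n : ℕ) (s : Set Z) (hs : MeasurableSet s) :
    R Q T n s = ((n + 1 : ℕ) : ℝ≥0∞)⁻¹ * ∑ i ∈ Finset.range (n + 1),
      Q (n + 1) (W^[T (n + 1) + i] ⁻¹' s) := by
  unfold R
  rw [Measure.smul_apply, Measure.finsetSum_apply, smul_eq_mul]
  congr 1
  apply Finset.sum_congr rfl
  intro i _
  rw [Measure.map_apply (Wn_cont _).measurable hs]

theorem cancel (n : ℕ) (c : ℝ≥0∞) :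
    ((n + 1 : ℕ) : ℝ≥0∞)⁻¹ * ∑ _i ∈ Finset.range (n + 1), c = c := by
  rw [Finset.sum_const, Finset.card_range, nsmul_eq_mul, ← mul_assoc, ENNReal.inv_mul_cancel, one_mul]
  · simp
  · simp

theorem R_int (Q : ℕ → Measure Z) (hQ : ∀ n, IsProbabilityMeasure (Q n)) (T : ℕ → ℕ) (n : ℕ)
    (F : Z →ᵇ ℝ) :
    ∫ p, F p ∂(R Q T n) = ((n + 1 : ℕ) : ℝ)⁻¹ * ∑ i ∈ Finset.range (n + 1),
      ∫ p, F (W^[T (n + 1) + i] p) ∂(Q (n + 1)) := by
  have hQ' := hQ (n + 1)
  unfold R
  rw [integral_smul_measure, integral_finsetSum_measure]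
  · rw [smul_eq_mul, ENNReal.toReal_inv, ENNReal.toReal_natCast]
    congr 1
    apply Finset.sum_congr rfl
    intro i _
    rw [integral_map (Wn_cont _).measurable.aemeasurable F.continuous.aestronglyMeasurable]
  · intro i _
    have : IsProbabilityMeasure ((Q (n + 1)).map (W^[T (n + 1) + i])) :=
      Measure.isProbabilityMeasure_map (Wn_cont _).measurable.aemeasurable
    exact F.integrable _

theorem main (μ ν : Measure X) [IsProbabilityMeasure μ] [IsProbabilityMeasure ν]
    (hμ : MeasurePreserving S μ μ) (hν : MeasurePreserving S ν ν) (m k : ℕ) (f : ℕ → Fin m)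
    (h : ℕ → Fin k) (a : Fin m) (b : Fin k) (j : ℕ) (Q : ℕ → Measure Z) (T : ℕ → ℕ) (r δ : ℝ)
    (L : ℕ → ℝ) (hQ : ∀ N, (Q N).map Prod.fst = μ ∧ (Q N).map Prod.snd = ν)
    (hL : Tendsto L atTop (𝓝 r))
    (hb : ∀ N, 0 < N → |(∑ i ∈ Finset.range N,
      (Q N).real {p | f (p.1 (T N + i)) = a ∧ h (p.2 (T N + i + j)) = b}) / (N : ℝ) - L N| ≤ δ) :
    ∃ ξ : Measure Z, IsProbabilityMeasure ξ ∧ MeasurePreserving (Prod.map S S) ξ ξ ∧
      ξ.map Prod.fst = μ ∧ ξ.map Prod.snd = ν ∧
      |ξ.real {p | f (p.1 0) = a ∧ h (p.2 j) = b} - r| ≤ δ := by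
  have hQp : ∀ N, IsProbabilityMeasure (Q N) := by
    intro N
    constructor
    have h1 : (Q N).map Prod.fst univ = 1 := by rw [(hQ N).1]; exact measure_univ
    rwa [Measure.map_apply measurable_fst MeasurableSet.univ, preimage_univ] at h1
  have hRuniv : ∀ n, IsProbabilityMeasure (R Q T n) := by
    intro n
    constructor
    rw [R_apply Q T n univ MeasurableSet.univ]
    have h1 : ∀ i ∈ Finset.range (n + 1), Q (n + 1) (W^[T (n + 1) + i] ⁻¹' univ) = 1 := by
      intro i _
      rw [preimage_univ]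
      exact (hQp (n + 1)).measure_univ
    rw [Finset.sum_congr rfl h1, cancel]
  have hR1 : ∀ n, (R Q T n).map Prod.fst = μ := by
    intro n
    ext s hs
    rw [Measure.map_apply measurable_fst hs, R_apply Q T n _ (measurable_fst hs)]
    have h1 : ∀ i ∈ Finset.range (n + 1),
        Q (n + 1) (W^[T (n + 1) + i] ⁻¹' (Prod.fst ⁻¹' s)) = μ s := by
      intro i _
      have h2 : W^[T (n + 1) + i] ⁻¹' (Prod.fst ⁻¹' s) =
          Prod.fst ⁻¹' (S^[T (n + 1) + i] ⁻¹' s) := by
        ext p
        simp only [mem_preimage, Wn]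
      have h3 := hμ.iterate (T (n + 1) + i)
      rw [h2, ← Measure.map_apply measurable_fst (h3.measurable hs), (hQ (n + 1)).1,
        h3.measure_preimage hs.nullMeasurableSet]
    rw [Finset.sum_congr rfl h1, cancel]
  have hR2 : ∀ n, (R Q T n).map Prod.snd = ν := by
    intro n
    ext s hs
    rw [Measure.map_apply measurable_snd hs, R_apply Q T n _ (measurable_snd hs)]
    have h1 : ∀ i ∈ Finset.range (n + 1),
        Q (n + 1) (W^[T (n + 1) + i] ⁻¹' (Prod.snd ⁻¹' s)) = ν s := by
      intro i _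
      have h2 : W^[T (n + 1) + i] ⁻¹' (Prod.snd ⁻¹' s) =
          Prod.snd ⁻¹' (S^[T (n + 1) + i] ⁻¹' s) := by
        ext p
        simp only [mem_preimage, Wn]
      have h3 := hν.iterate (T (n + 1) + i)
      rw [h2, ← Measure.map_apply measurable_snd (h3.measurable hs), (hQ (n + 1)).2,
        h3.measure_preimage hs.nullMeasurableSet]
    rw [Finset.sum_congr rfl h1, cancel]
  -- compactness
  set 𝒮 : Set (ProbabilityMeasure Z) :=
    {ξ | (ξ : Measure Z).map Prod.fst = μ ∧ (ξ : Measure Z).map Prod.snd = ν} with h𝒮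
  have htight : IsTightMeasureSet {((ξ : ProbabilityMeasure Z) : Measure Z) | ξ ∈ 𝒮} := by
    apply IsTightMeasureSet.prodMk
    · apply (isTightMeasureSet_singleton (μ := μ)).subset
      rintro _ ⟨_, ⟨ξ, hξ, rfl⟩, rfl⟩
      exact hξ.1
    · apply (isTightMeasureSet_singleton (μ := ν)).subset
      rintro _ ⟨_, ⟨ξ, hξ, rfl⟩, rfl⟩
      exact hξ.2
  have hcomp := isCompact_closure_of_isTightMeasureSet htight
  let Rp : ℕ → ProbabilityMeasure Z := fun n => ⟨R Q T n, hRuniv n⟩
  let 𝒰 : Ultrafilter ℕ := Ultrafilter.of atTop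
  have h𝒰 : (𝒰 : Filter ℕ) ≤ atTop := Ultrafilter.of_le _
  have hmem : ((𝒰.map Rp : Ultrafilter (ProbabilityMeasure Z)) : Filter (ProbabilityMeasure Z)) ≤
      𝓟 (closure 𝒮) := by
    rw [le_principal_iff]
    show Rp ⁻¹' (closure 𝒮) ∈ 𝒰
    have : Rp ⁻¹' (closure 𝒮) = univ := by
      rw [eq_univ_iff_forall]
      intro n
      apply subset_closure
      exact ⟨hR1 n, hR2 n⟩
    rw [this]
    exact univ_mem
  obtain ⟨ξ, -, hξ⟩ := hcomp.ultrafilter_le_nhds _ hmem
  have hlim : Tendsto Rp 𝒰 (𝓝 ξ) := hξ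
  rw [ProbabilityMeasure.tendsto_iff_forall_integral_tendsto] at hlim
  have hlim' : ∀ F : Z →ᵇ ℝ, Tendsto (fun n => ∫ p, F p ∂(R Q T n)) 𝒰
      (𝓝 (∫ p, F p ∂(ξ : Measure Z))) := hlim
  refine ⟨(ξ : Measure Z), inferInstance, ⟨W_cont.measurable, ?_⟩, ?_, ?_, ?_⟩
  · -- invariance
    have hp : IsProbabilityMeasure ((ξ : Measure Z).map (Prod.map S S)) :=
      Measure.isProbabilityMeasure_map W_cont.measurable.aemeasurable
    apply ext_of_forall_integral_eq_of_IsFiniteMeasure
    intro F
    have hWm : Measurable (Prod.map S S : Z → Z) := W_cont.measurable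
    rw [integral_map hWm.aemeasurable F.continuous.aestronglyMeasurable]
    let G : Z →ᵇ ℝ := F.compContinuous ⟨W, W_cont⟩
    have h1 := hlim' G
    have h2 := hlim' F
    have h3 := h1.sub h2
    have h4 : Tendsto (fun n => ∫ p, G p ∂(R Q T n) - ∫ p, F p ∂(R Q T n)) 𝒰 (𝓝 0) := by
      have h5 : Tendsto (fun n : ℕ => ((n + 1 : ℕ) : ℝ)⁻¹ * (2 * ‖F‖)) atTop (𝓝 0) := by
        have h6 : Tendsto (fun n : ℕ => ((n + 1 : ℕ) : ℝ)⁻¹) atTop (𝓝 0) :=
          (tendsto_inv_atTop_nhds_zero_nat (𝕜 := ℝ)).comp (tendsto_add_atTop_nat 1)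
        simpa using h6.mul_const (2 * ‖F‖)
      apply squeeze_zero_norm _ (h5.mono_left h𝒰)
      intro n
      rw [R_int Q hQp T n G, R_int Q hQp T n F, ← mul_sub]
      have hQ' := hQp (n + 1)
      have h6 : ∀ i, ∫ p, G (W^[T (n + 1) + i] p) ∂(Q (n + 1)) =
          ∫ p, F (W^[T (n + 1) + (i + 1)] p) ∂(Q (n + 1)) := by
        intro i
        congr 1
        funext p
        show F (W (W^[T (n + 1) + i] p)) = F (W^[T (n + 1) + (i + 1)] p)
        rw [← add_assoc, Function.iterate_succ_apply']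
      simp only [h6]
      rw [← Finset.sum_sub_distrib,
        Finset.sum_range_sub (fun i => ∫ p, F (W^[T (n + 1) + i] p) ∂(Q (n + 1)))]
      rw [norm_mul, norm_inv, Real.norm_natCast]
      apply mul_le_mul_of_nonneg_left _ (by positivity)
      have h7 : ∀ i, ‖∫ p, F (W^[T (n + 1) + i] p) ∂(Q (n + 1))‖ ≤ ‖F‖ := by
        intro i
        have := norm_integral_le_of_norm_le_const (μ := Q (n + 1))
          (f := fun p => F (W^[T (n + 1) + i] p)) (C := ‖F‖)
          (ae_of_all _ fun p => F.norm_coe_le_norm _)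
        simpa using this
      refine (norm_sub_le _ _).trans ?_
      rw [two_mul]
      exact add_le_add (h7 _) (h7 _)
    have h5 := tendsto_nhds_unique h3 h4
    have h6 : ∫ p, F (Prod.map S S p) ∂(ξ : Measure Z) = ∫ p, G p ∂(ξ : Measure Z) := rfl
    rw [h6]
    exact sub_eq_zero.1 h5
  · have hp : IsProbabilityMeasure ((ξ : Measure Z).map Prod.fst) :=
      Measure.isProbabilityMeasure_map measurable_fst.aemeasurable
    apply ext_of_forall_integral_eq_of_IsFiniteMeasure
    intro F
    rw [integral_map measurable_fst.aemeasurable F.continuous.aestronglyMeasurable]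
    let G : Z →ᵇ ℝ := F.compContinuous ⟨Prod.fst, continuous_fst⟩
    have h1 := hlim' G
    have h2 : ∀ n, ∫ p, G p ∂(R Q T n) = ∫ x, F x ∂μ := by
      intro n
      rw [← hR1 n, integral_map measurable_fst.aemeasurable F.continuous.aestronglyMeasurable]
      rfl
    simp only [h2] at h1
    exact tendsto_nhds_unique h1 tendsto_const_nhds
  · have hp : IsProbabilityMeasure ((ξ : Measure Z).map Prod.snd) :=
      Measure.isProbabilityMeasure_map measurable_snd.aemeasurable
    apply ext_of_forall_integral_eq_of_IsFiniteMeasure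
    intro F
    rw [integral_map measurable_snd.aemeasurable F.continuous.aestronglyMeasurable]
    let G : Z →ᵇ ℝ := F.compContinuous ⟨Prod.snd, continuous_snd⟩
    have h1 := hlim' G
    have h2 : ∀ n, ∫ p, G p ∂(R Q T n) = ∫ x, F x ∂ν := by
      intro n
      rw [← hR2 n, integral_map measurable_snd.aemeasurable F.continuous.aestronglyMeasurable]
      rfl
    simp only [h2] at h1
    exact tendsto_nhds_unique h1 tendsto_const_nhds
  · -- the clopen set
    let φ : Fin m × Fin k → ℝ := fun q => if q.1 = a ∧ q.2 = b then 1 else 0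
    have hφ : ∀ q, ‖φ q‖ ≤ 1 := by
      intro q
      show ‖(if q.1 = a ∧ q.2 = b then (1 : ℝ) else 0)‖ ≤ 1
      split_ifs <;> simp
    have hc1 : Continuous (fun p : Z => (f (p.1 0), h (p.2 j))) := by
      apply Continuous.prodMk
      · exact (continuous_of_discreteTopology (f := f)).comp ((continuous_apply 0).comp continuous_fst)
      · exact (continuous_of_discreteTopology (f := h)).comp ((continuous_apply j).comp continuous_snd)
    have hc2 : Continuous (fun p : Z => φ (f (p.1 0), h (p.2 j))) :=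
      (continuous_of_discreteTopology (f := φ)).comp hc1
    let F : Z →ᵇ ℝ := BoundedContinuousFunction.ofNormedAddCommGroup
      (fun p : Z => φ (f (p.1 0), h (p.2 j))) hc2 1 (fun p => hφ _)
    have hset : ∀ s t : ℕ, MeasurableSet {p : Z | f (p.1 s) = a ∧ h (p.2 t) = b} := by
      intro s t
      have hc3 : Continuous (fun p : Z => (f (p.1 s), h (p.2 t))) := by
        apply Continuous.prodMk
        · exact (continuous_of_discreteTopology (f := f)).comp
            ((continuous_apply s).comp continuous_fst)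
        · exact (continuous_of_discreteTopology (f := h)).comp
            ((continuous_apply t).comp continuous_snd)
      have h1 : IsOpen {q : Fin m × Fin k | q.1 = a ∧ q.2 = b} := isOpen_discrete _
      exact (h1.preimage hc3).measurableSet
    have hind : ∀ (ρ : Measure Z) (s t : ℕ), ∫ p, φ (f (p.1 s), h (p.2 t)) ∂ρ =
        ρ.real {p : Z | f (p.1 s) = a ∧ h (p.2 t) = b} := by
      intro ρ s t
      rw [← integral_indicator_one (hset s t)]
      congr 1
      funext p
      by_cases hp : f (p.1 s) = a ∧ h (p.2 t) = b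
      · rw [indicator_of_mem (by simpa using hp)]
        show (if f (p.1 s) = a ∧ h (p.2 t) = b then (1 : ℝ) else 0) = 1
        rw [if_pos hp]
      · rw [indicator_of_notMem (by simpa using hp)]
        show (if f (p.1 s) = a ∧ h (p.2 t) = b then (1 : ℝ) else 0) = 0
        rw [if_neg hp]
    have h1 := hlim' F
    have h2 : ∫ p, F p ∂(ξ : Measure Z) = (ξ : Measure Z).real {p | f (p.1 0) = a ∧ h (p.2 j) = b} :=
      hind _ 0 j
    rw [h2] at h1
    have h3 : ∀ n, |∫ p, F p ∂(R Q T n) - L (n + 1)| ≤ δ := by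
      intro n
      have h4 := hb (n + 1) (Nat.succ_pos n)
      rw [R_int Q hQp T n F]
      have h5 : ∀ i, ∫ p, F (W^[T (n + 1) + i] p) ∂(Q (n + 1)) =
          (Q (n + 1)).real {p | f (p.1 (T (n + 1) + i)) = a ∧ h (p.2 (T (n + 1) + i + j)) = b} := by
        intro i
        rw [← hind]
        congr 1
        funext p
        show φ (f ((W^[T (n + 1) + i] p).1 0), h ((W^[T (n + 1) + i] p).2 j)) = _
        rw [Wn, Sn, Sn]
        simp only [Nat.zero_add]
        rw [add_comm j]
      simp only [h5]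
      rw [div_eq_inv_mul] at h4
      exact h4
    have h4 : Tendsto (fun n => L (n + 1)) 𝒰 (𝓝 r) :=
      (hL.comp (tendsto_add_atTop_nat 1)).mono_left h𝒰
    have h5 := (h1.sub h4).abs
    exact le_of_tendsto h5 (Eventually.of_forall h3)

theorem joi : S_joi := by
  intro μ ν _ _ hμ hν m k f h a b j Q T r δ L hQ hL hb
  exact main μ ν hμ hν m k f h a b j Q T r δ L hQ hL hb

end Pool.Agent.Q223.DJ_JOI
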