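import Mathlib

/-!
# MP_998457_co: definitions (energy barriers of classical codes and of tensor product codes)
-/

set_option autoImplicit false

namespace Q223.Energy

open scoped Kronecker

variable {m n : Type} [Fintype m] [Fintype n]

/-- the energy of `x`: the number of violated checks -/
def energy (δ : Matrix m n (ZMod 2)) (x : n → ZMod 2) : ℕ := hammingNorm (δ.mulVec x)

/-- there is a path of single bit flips from `0` to `x` on which all energies are at most `E` -/
def ReachableWithin (δ : Matrix m n (ZMod 2)) (x : n → ZMod 2) (E : ℕ) : Prop :=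
  ∃ (F : ℕ) (p : ℕ → n → ZMod 2), p 0 = 0 ∧ p F = x ∧
    (∀ i < F, hammingDist (p i) (p (i + 1)) = 1) ∧ ∀ i ≤ F, energy δ (p i) ≤ E

/-- the energy barrier of a vector -/
noncomputable def barrier (δ : Matrix m n (ZMod 2)) (x : n → ZMod 2) : ℕ :=
  sInf {E | ReachableWithin δ x E}

/-- the energy barrier of a code: the minimum over the nonzero codewords -/
noncomputable def codeBarrier (δ : Matrix m n (ZMod 2)) : ℕ :=
  sInf {E | ∃ x : n → ZMod 2, x ≠ 0 ∧ δ.mulVec x = 0 ∧ barrier δ x = E}

/-- the minimum distance of a code -/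
noncomputable def minDistance (δ : Matrix m n (ZMod 2)) : ℕ :=
  sInf {w | ∃ x : n → ZMod 2, x ≠ 0 ∧ δ.mulVec x = 0 ∧ hammingNorm x = w}

/-- the parity-check matrix of the tensor product code: `δ_a ⊗ 1` on top of `1 ⊗ δ_b` -/
def product {ma na mb nb : Type} [DecidableEq na] [DecidableEq nb]
    (δa : Matrix ma na (ZMod 2)) (δb : Matrix mb nb (ZMod 2)) :
    Matrix ((ma × nb) ⊕ (na × mb)) (na × nb) (ZMod 2) :=
  Matrix.fromRows (δa ⊗ₖ (1 : Matrix nb nb (ZMod 2))) ((1 : Matrix na na (ZMod 2)) ⊗ₖ δb)

end Q223.Energy
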