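import Mathlib
import Pool.Agent.Q223.EnergyDefs

/-!
# MP_998457_co: proof
-/

set_option autoImplicit false

namespace Q223.Energy

open Finset Relation
open scoped Kronecker

section general

variable {m n : Type} [Fintype m] [Fintype n]

theorem path_of_rel {δ : Matrix m n (ZMod 2)} {E : ℕ} {x y : n → ZMod 2}
    (hx : energy δ x ≤ E)
    (h : ReflTransGen (fun a b => hammingDist a b = 1 ∧ energy δ b ≤ E) x y) :
    ∃ (F : ℕ) (p : ℕ → n → ZMod 2), p 0 = x ∧ p F = y ∧
      (∀ i < F, hammingDist (p i) (p (i + 1)) = 1) ∧ ∀ i ≤ F, energy δ (p i) ≤ E := by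
  induction h with
  | refl => exact ⟨0, fun _ => x, rfl, rfl, fun i hi => absurd hi (Nat.not_lt_zero i),
      fun i _ => hx⟩
  | @tail b c _ hbc ih =>
    obtain ⟨F, p, h0, hF, h1, h2⟩ := ih
    refine ⟨F + 1, fun i => if i ≤ F then p i else c, by simpa using h0, by simp, ?_, ?_⟩
    · intro i hi
      rcases Nat.lt_succ_iff_lt_or_eq.1 hi with h | h
      · simp only [h.le, if_true, Nat.succ_le_of_lt h]
        exact h1 i h
      · subst h
        simp only [le_refl, if_true, Nat.not_succ_le_self, if_false]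
        rw [hF]
        exact hbc.1
    · intro i hi
      by_cases h : i ≤ F
      · simp only [h, if_true]
        exact h2 i h
      · simp only [h, if_false]
        exact hbc.2

variable [DecidableEq n]

theorem dist_update (y : n → ZMod 2) (i : n) (v : ZMod 2) (h : y i ≠ v) :
    hammingDist y (Function.update y i v) = 1 := by
  unfold hammingDist
  rw [card_eq_one]
  refine ⟨i, ?_⟩
  ext j
  simp only [mem_filter, mem_univ, true_and, mem_singleton]
  constructor
  · intro hj
    by_contra hne
    exact hj (by rw [Function.update_of_ne hne])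
  · rintro rfl
    simpa using h

theorem rel_all (δ : Matrix m n (ZMod 2)) (x : n → ZMod 2) : ∀ (k : ℕ) (y : n → ZMod 2),
    hammingDist y x = k →
    ReflTransGen (fun a b => hammingDist a b = 1 ∧ energy δ b ≤ Fintype.card m) y x
  | 0, y, h => by
    rw [hammingDist_eq_zero.1 h]
  | k + 1, y, h => by
    have hne : y ≠ x := by
      rintro rfl
      simp at h
    obtain ⟨i, hi⟩ := Function.ne_iff.1 hne
    have h2 : hammingDist (Function.update y i (x i)) x = k := by
      have : (univ.filter fun j => y j ≠ x j) =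
          insert i (univ.filter fun j => Function.update y i (x i) j ≠ x j) := by
        ext j
        by_cases hj : j = i
        · subst hj; simp [hi]
        · simp [hj, Function.update_of_ne hj]
      unfold hammingDist at h ⊢
      rw [this, card_insert_of_notMem (by simp)] at h
      omega
    refine ReflTransGen.head ⟨dist_update y i (x i) hi, ?_⟩ (rel_all δ x k _ h2)
    exact hammingNorm_le_card_fintype

theorem exists_reach (δ : Matrix m n (ZMod 2)) (x : n → ZMod 2) :
    ∃ E, ReachableWithin δ x E :=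
  ⟨_, path_of_rel (by unfold energy; exact hammingNorm_le_card_fintype)
    (rel_all δ x _ 0 rfl)⟩

omit [DecidableEq n] in
theorem barrier_le {δ : Matrix m n (ZMod 2)} {x : n → ZMod 2} (h0 : x ≠ 0)
    (h1 : δ.mulVec x = 0) {E : ℕ} (h : ReachableWithin δ x E) : codeBarrier δ ≤ E :=
  (Nat.sInf_le ⟨x, h0, h1, rfl⟩ : codeBarrier δ ≤ barrier δ x).trans (Nat.sInf_le h)

theorem le_barrier {δ : Matrix m n (ZMod 2)} {B : ℕ} {x₀ : n → ZMod 2} (h0 : x₀ ≠ 0)
    (h1 : δ.mulVec x₀ = 0)
    (h : ∀ x : n → ZMod 2, x ≠ 0 → δ.mulVec x = 0 → ∀ E, ReachableWithin δ x E → B ≤ E) :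
    B ≤ codeBarrier δ := by
  refine le_csInf ⟨_, x₀, h0, h1, rfl⟩ ?_
  rintro _ ⟨x, hx0, hx1, rfl⟩
  exact le_csInf (exists_reach δ x) fun E hE => h x hx0 hx1 E hE

omit [DecidableEq n] in
theorem le_minDistance {δ : Matrix m n (ZMod 2)} {B : ℕ} {x₀ : n → ZMod 2} (h0 : x₀ ≠ 0)
    (h1 : δ.mulVec x₀ = 0)
    (h : ∀ x : n → ZMod 2, x ≠ 0 → δ.mulVec x = 0 → B ≤ hammingNorm x) :
    B ≤ minDistance δ := by
  refine le_csInf ⟨_, x₀, h0, h1, rfl⟩ ?_
  rintro _ ⟨x, hx0, hx1, rfl⟩
  exact h x hx0 hx1

end general

/-! ### energy of the product -/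

section prod

variable {ma na mb nb : Type} [Fintype ma] [Fintype na] [Fintype mb] [Fintype nb]
  [DecidableEq na] [DecidableEq nb]

theorem prod_inl (δa : Matrix ma na (ZMod 2)) (δb : Matrix mb nb (ZMod 2))
    (X : na × nb → ZMod 2) (s : ma) (c : nb) :
    (product δa δb).mulVec X (Sum.inl (s, c)) = δa.mulVec (fun i => X (i, c)) s := by
  simp [product, Matrix.mulVec, dotProduct, Matrix.kroneckerMap_apply, Fintype.sum_prod_type,
    Matrix.one_apply]

theorem prod_inr (δa : Matrix ma na (ZMod 2)) (δb : Matrix mb nb (ZMod 2))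
    (X : na × nb → ZMod 2) (i : na) (t : mb) :
    (product δa δb).mulVec X (Sum.inr (i, t)) = δb.mulVec (fun c => X (i, c)) t := by
  simp [product, Matrix.mulVec, dotProduct, Matrix.kroneckerMap_apply, Fintype.sum_prod_type,
    Matrix.one_apply]

theorem energy_eq_sum {m n : Type} [Fintype m] [Fintype n] (δ : Matrix m n (ZMod 2))
    (x : n → ZMod 2) : energy δ x = ∑ r, if δ.mulVec x r ≠ 0 then 1 else 0 := by
  unfold energy hammingNorm
  rw [card_filter]

theorem energy_prod (δa : Matrix ma na (ZMod 2)) (δb : Matrix mb nb (ZMod 2))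
    (X : na × nb → ZMod 2) : energy (product δa δb) X =
      ∑ c, energy δa (fun i => X (i, c)) + ∑ i, energy δb (fun c => X (i, c)) := by
  simp only [energy_eq_sum]
  rw [Fintype.sum_sum_type, Fintype.sum_prod_type, Fintype.sum_prod_type, sum_comm]
  simp only [prod_inl, prod_inr]

end prod

/-! ### the codes -/

/-- extension of a vector by zero to the natural numbers -/
def ext' {L : ℕ} (x : Fin L → ZMod 2) (a : ℕ) : ZMod 2 := if h : a < L then x ⟨a, h⟩ else 0

theorem sum_ext {L : ℕ} (x : Fin L → ZMod 2) (a : ℕ) :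
    ∑ c : Fin L, (if (c : ℕ) = a then (1 : ZMod 2) else 0) * x c = ext' x a := by
  unfold ext'
  split_ifs with h
  · rw [sum_eq_single (⟨a, h⟩ : Fin L)]
    · simp
    · intro b _ hb
      have : (b : ℕ) ≠ a := fun e => hb (Fin.ext e)
      simp [this]
    · simp
  · apply sum_eq_zero
    intro c _
    have : (c : ℕ) ≠ a := by have := c.2; omega
    simp [this]

/-- the chain (repetition code of length `l + 1`) -/
def chain (l : ℕ) : Matrix (Fin l) (Fin (l + 1)) (ZMod 2) := fun s c =>
  (if (c : ℕ) = s then 1 else 0) + (if (c : ℕ) = s + 1 then 1 else 0)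

/-- the chain with one heavy bond between the bits `2M` and `2M + 1` -/
def heavy (l M : ℕ) : Matrix (Fin l ⊕ Fin M) (Fin (l + 1)) (ZMod 2) := fun r c =>
  match r with
  | Sum.inl s => (if (c : ℕ) = s then 1 else 0) + (if (c : ℕ) = s + 1 then 1 else 0)
  | Sum.inr k => (if (c : ℕ) = 2 * k then 1 else 0) + (if (c : ℕ) = 2 * k + 1 then 1 else 0) +
      (if (c : ℕ) = 2 * M then 1 else 0) + (if (c : ℕ) = 2 * M + 1 then 1 else 0)

theorem chain_mul (l : ℕ) (x : Fin (l + 1) → ZMod 2) (s : Fin l) :
    (chain l).mulVec x s = ext' x s + ext' x (s + 1) := by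
  simp only [Matrix.mulVec, dotProduct, chain, add_mul, sum_add_distrib, sum_ext]

theorem heavy_inl (l M : ℕ) (x : Fin (l + 1) → ZMod 2) (s : Fin l) :
    (heavy l M).mulVec x (Sum.inl s) = ext' x s + ext' x (s + 1) := by
  simp only [Matrix.mulVec, dotProduct, heavy, add_mul, sum_add_distrib, sum_ext]

theorem heavy_inr (l M : ℕ) (x : Fin (l + 1) → ZMod 2) (k : Fin M) :
    (heavy l M).mulVec x (Sum.inr k) =
      ext' x (2 * k) + ext' x (2 * k + 1) + ext' x (2 * M) + ext' x (2 * M + 1) := by
  simp only [Matrix.mulVec, dotProduct, heavy, add_mul, sum_add_distrib, sum_ext]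

theorem zmod2 : ∀ a b : ZMod 2, a + b = 0 → a = b := by decide
theorem zmod2' : ∀ a : ZMod 2, a ≠ 0 → a = 1 := by decide

theorem const_of_chain {l : ℕ} {x : Fin (l + 1) → ZMod 2}
    (h : ∀ s : Fin l, ext' x s + ext' x (s + 1) = 0) (h0 : x ≠ 0) : x = fun _ => 1 := by
  have h1 : ∀ a, a ≤ l → ext' x a = ext' x 0 := by
    intro a
    induction a with
    | zero => intro _; rfl
    | succ a ih =>
      intro ha
      rw [← ih (by omega)]
      exact (zmod2 _ _ (h ⟨a, by omega⟩)).symm
  have h2 : ∀ c : Fin (l + 1), x c = x 0 := by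
    intro c
    have h3 := h1 c (by omega)
    unfold ext' at h3
    rw [dif_pos c.2, dif_pos (Nat.succ_pos l)] at h3
    exact h3
  obtain ⟨i, hi⟩ := Function.ne_iff.1 h0
  have h3 : x 0 = 1 := by
    rw [← h2 i]
    exact zmod2' _ hi
  funext c
  rw [h2 c, h3]

theorem one_ne {l : ℕ} : (fun _ => 1 : Fin (l + 1) → ZMod 2) ≠ 0 := by
  intro h
  have := congrFun h 0
  simp at this

theorem ext_one {l : ℕ} {a : ℕ} (ha : a ≤ l) :
    ext' (fun _ => 1 : Fin (l + 1) → ZMod 2) a = 1 := by
  simp [ext', show a < l + 1 by omega]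

theorem two_zmod : (1 : ZMod 2) + 1 = 0 := by decide

theorem chain_one (l : ℕ) : (chain l).mulVec (fun _ => 1) = 0 := by
  funext s
  rw [chain_mul, ext_one (by omega), ext_one (by omega)]
  exact two_zmod

theorem heavy_one {l M : ℕ} (h : 2 * M + 1 ≤ l) : (heavy l M).mulVec (fun _ => 1) = 0 := by
  funext r
  cases r with
  | inl s =>
    rw [heavy_inl, ext_one (by omega), ext_one (by omega)]
    exact two_zmod
  | inr k =>
    rw [heavy_inr, ext_one (by omega), ext_one (by omega), ext_one (by omega),
      ext_one (by omega)]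
    rw [two_zmod, zero_add]
    exact two_zmod

theorem norm_one (l : ℕ) : hammingNorm (fun _ => 1 : Fin (l + 1) → ZMod 2) = l + 1 := by
  simp [hammingNorm]

theorem chain_ker {l : ℕ} {x : Fin (l + 1) → ZMod 2} (h0 : x ≠ 0)
    (h1 : (chain l).mulVec x = 0) : x = fun _ => 1 := by
  refine const_of_chain (fun s => ?_) h0
  rw [← chain_mul, h1]
  rfl

theorem heavy_ker {l M : ℕ} {x : Fin (l + 1) → ZMod 2} (h0 : x ≠ 0)
    (h1 : (heavy l M).mulVec x = 0) : x = fun _ => 1 := by
  refine const_of_chain (fun s => ?_) h0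
  rw [← heavy_inl l M, h1]
  rfl

theorem chain_dist (l : ℕ) : l + 1 ≤ minDistance (chain l) :=
  le_minDistance one_ne (chain_one l) fun x h0 h1 => by rw [chain_ker h0 h1, norm_one]

theorem heavy_dist {l M : ℕ} (h : 2 * M + 1 ≤ l) : l + 1 ≤ minDistance (heavy l M) :=
  le_minDistance one_ne (heavy_one h) fun x h0 h1 => by rw [heavy_ker h0 h1, norm_one]

theorem chain_barrier {l : ℕ} (hl : 1 ≤ l) : 1 ≤ codeBarrier (chain l) := by
  refine le_barrier one_ne (chain_one l) fun x h0 h1 E hE => ?_
  obtain ⟨F, p, hp0, hpF, hs, hE⟩ := hE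
  have hF : 0 < F := by
    rcases Nat.eq_zero_or_pos F with h | h
    · subst h
      exact absurd (hpF.symm.trans hp0) h0
    · exact h
  have hd := hs 0 hF
  rw [hp0, hammingDist_comm, hammingDist_zero_right] at hd
  by_contra hlt
  have hE0 : E = 0 := by omega
  have h3 := hE 1 hF
  rw [hE0, Nat.le_zero] at h3
  unfold energy at h3
  rw [hammingNorm_eq_zero] at h3
  have hne : p 1 ≠ 0 := by
    intro h
    rw [show (0 : ℕ) + 1 = 1 from rfl, h] at hd
    simp at hd
  rw [show (0 : ℕ) + 1 = 1 from rfl, chain_ker hne h3, norm_one] at hd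
  omega

theorem heavy_barrier {l M : ℕ} (h : 2 * M + 1 ≤ l) : M ≤ codeBarrier (heavy l M) := by
  classical
  refine le_barrier one_ne (heavy_one h) fun x h0 h1 E hE => ?_
  obtain ⟨F, p, hp0, hpF, hs, hE⟩ := hE
  have hx := heavy_ker h0 h1
  have hex : ∃ t, p t ⟨2 * M, by omega⟩ = 1 ∨ p t ⟨2 * M + 1, by omega⟩ = 1 :=
    ⟨F, Or.inl (by rw [hpF, hx])⟩
  set t := Nat.find hex with ht
  have htF : t ≤ F := Nat.find_min' hex (Or.inl (by rw [hpF, hx]))
  have ht1 := Nat.find_spec hex
  rw [← ht] at ht1
  have ht0 : t ≠ 0 := by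
    intro h
    rw [h, hp0] at ht1
    simp at ht1
  obtain ⟨u, hu⟩ : ∃ u, t = u + 1 := ⟨t - 1, by omega⟩
  have hu1 : ¬ (p u ⟨2 * M, by omega⟩ = 1 ∨ p u ⟨2 * M + 1, by omega⟩ = 1) :=
    Nat.find_min hex (by rw [← ht]; omega)
  push Not at hu1
  have hd := hs u (by omega)
  rw [← hu] at hd
  unfold hammingDist at hd
  rw [card_eq_one] at hd
  obtain ⟨i, hi⟩ := hd
  have key : p t ⟨2 * M, by omega⟩ + p t ⟨2 * M + 1, by omega⟩ = 1 := by
    have z : ∀ a : ZMod 2, a ≠ 1 → a = 0 := by decide
    by_cases hboth : p t ⟨2 * M, by omega⟩ = 1 ∧ p t ⟨2 * M + 1, by omega⟩ = 1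
    · exfalso
      have m1 : (⟨2 * M, by omega⟩ : Fin (l + 1)) ∈ ({i} : Finset _) := by
        rw [← hi, mem_filter]
        refine ⟨mem_univ _, ?_⟩
        rw [hboth.1]
        exact hu1.1
      have m2 : (⟨2 * M + 1, by omega⟩ : Fin (l + 1)) ∈ ({i} : Finset _) := by
        rw [← hi, mem_filter]
        refine ⟨mem_univ _, ?_⟩
        rw [hboth.2]
        exact hu1.2
      rw [mem_singleton] at m1 m2
      have := congrArg Fin.val (m1.trans m2.symm)
      simp at this
    · rcases ht1 with h2 | h2
      · rw [h2, z _ fun h3 => hboth ⟨h2, h3⟩, add_zero]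
      · rw [h2, z _ fun h3 => hboth ⟨h3, h2⟩, zero_add]
  refine le_trans ?_ (hE t htF)
  -- the energy is at least `M`
  have e1 : ext' (p t) (2 * M) + ext' (p t) (2 * M + 1) = 1 := by
    unfold ext'
    rw [dif_pos (by omega), dif_pos (by omega)]
    exact key
  unfold energy hammingNorm
  let f : Fin M → Fin l ⊕ Fin M := fun k =>
    if (heavy l M).mulVec (p t) (Sum.inr k) ≠ 0 then Sum.inr k else Sum.inl ⟨2 * k, by omega⟩
  have hf : Function.Injective f := by
    intro k k' hk
    simp only [f] at hk
    split_ifs at hk with h2 h3 h3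
    · exact Sum.inr.inj hk
    · have := Fin.mk.inj_iff.1 (Sum.inl.inj hk)
      exact Fin.ext (by omega)
  calc M = (univ : Finset (Fin M)).card := by simp
    _ = (univ.map ⟨f, hf⟩).card := by rw [card_map]
    _ ≤ _ := by
      apply card_le_card
      intro r hr
      rw [mem_map] at hr
      obtain ⟨k, _, rfl⟩ := hr
      rw [mem_filter]
      refine ⟨mem_univ _, ?_⟩
      simp only [Function.Embedding.coeFn_mk, f]
      split_ifs with h2
      · exact h2
      · rw [heavy_inl]
        have h3 : (heavy l M).mulVec (p t) (Sum.inr k) = 0 := by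
          by_contra h4
          exact h2 h4
        rw [heavy_inr, add_assoc, e1] at h3
        simp only
        intro h4
        rw [h4, zero_add] at h3
        exact one_ne_zero h3

/-! ### the path in the product -/

/-- prefix vectors -/
def pre (L p : ℕ) : Fin L → ZMod 2 := fun c => if (c : ℕ) < p then 1 else 0

theorem ext_pre {L p a : ℕ} (ha : a < L) : ext' (pre L p) a = if a < p then 1 else 0 := by
  simp [ext', ha, pre]

theorem heavy_pre {l M p : ℕ} (h : 2 * M + 1 ≤ l) (hp : p ≠ 2 * M + 1) :
    energy (heavy l M) (pre (l + 1) p) ≤ 2 := by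
  rw [energy_eq_sum, Fintype.sum_sum_type]
  have h1 : ∑ s : Fin l, (if (heavy l M).mulVec (pre (l + 1) p) (Sum.inl s) ≠ 0 then 1 else 0) ≤ 1 := by
    rw [← card_filter, card_le_one]
    intro s hs t ht
    rw [mem_filter, heavy_inl, ext_pre (by omega), ext_pre (by omega)] at hs ht
    have key : ∀ s : ℕ, ((if s < p then (1 : ZMod 2) else 0) + (if s + 1 < p then 1 else 0)) ≠ 0 →
        s + 1 = p := by
      intro s hs
      by_contra hne
      apply hs
      by_cases h1 : s < p
      · have h2 : s + 1 < p := by omega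
        simp only [h1, h2, if_true]
        exact two_zmod
      · have h2 : ¬ s + 1 < p := by omega
        simp [h1, h2]
    have a1 := key s hs.2
    have a2 := key t ht.2
    exact Fin.ext (by omega)
  have h2 : ∑ k : Fin M, (if (heavy l M).mulVec (pre (l + 1) p) (Sum.inr k) ≠ 0 then 1 else 0) ≤ 1 := by
    rw [← card_filter, card_le_one]
    intro s hs t ht
    rw [mem_filter, heavy_inr, ext_pre (by omega), ext_pre (by omega), ext_pre (by omega),
      ext_pre (by omega)] at hs ht
    have e : (if 2 * M < p then (1 : ZMod 2) else 0) + (if 2 * M + 1 < p then 1 else 0) = 0 := by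
      by_cases h1 : 2 * M < p
      · have h2 : 2 * M + 1 < p := by omega
        simp only [h1, h2, if_true]
        exact two_zmod
      · have h2 : ¬ 2 * M + 1 < p := by omega
        simp [h1, h2]
    have key : ∀ s : ℕ, ((if 2 * s < p then (1 : ZMod 2) else 0) + (if 2 * s + 1 < p then 1 else 0)) ≠ 0 →
        2 * s + 1 = p := by
      intro s hs
      by_contra hne
      apply hs
      by_cases h1 : 2 * s < p
      · have h2 : 2 * s + 1 < p := by omega
        simp only [h1, h2, if_true]
        exact two_zmod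
      · have h2 : ¬ 2 * s + 1 < p := by omega
        simp [h1, h2]
    rw [add_assoc, e, add_zero] at hs ht
    have a1 := key s hs.2
    have a2 := key t ht.2
    exact Fin.ext (by omega)
  omega

theorem heavy_pre' {l M : ℕ} (h : 2 * M + 1 ≤ l) (p : ℕ) :
    energy (heavy l M) (pre (l + 1) p) ≤ M + 2 := by
  by_cases hp : p = 2 * M + 1
  · rw [energy_eq_sum, Fintype.sum_sum_type]
    have h1 : ∑ s : Fin l, (if (heavy l M).mulVec (pre (l + 1) p) (Sum.inl s) ≠ 0 then 1 else 0) ≤ 1 := by
      rw [← card_filter, card_le_one]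
      intro s hs t ht
      rw [mem_filter, heavy_inl, ext_pre (by omega), ext_pre (by omega)] at hs ht
      have key : ∀ s : ℕ, ((if s < p then (1 : ZMod 2) else 0) + (if s + 1 < p then 1 else 0)) ≠ 0 →
          s + 1 = p := by
        intro s hs
        by_contra hne
        apply hs
        by_cases h1 : s < p
        · have h2 : s + 1 < p := by omega
          simp only [h1, h2, if_true]
          exact two_zmod
        · have h2 : ¬ s + 1 < p := by omega
          simp [h1, h2]
      have a1 := key s hs.2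
      have a2 := key t ht.2
      exact Fin.ext (by omega)
    have h2 : ∑ k : Fin M, (if (heavy l M).mulVec (pre (l + 1) p) (Sum.inr k) ≠ 0 then 1 else 0) ≤ M := by
      rw [← card_filter]
      exact (card_le_univ _).trans (by simp)
    omega
  · exact (heavy_pre h hp).trans (by omega)

/-- the state in which row `i` has the first `g i` bits flipped -/
def S (n l : ℕ) (g : ℕ → ℕ) : Fin (n + 1) × Fin (l + 1) → ZMod 2 := fun ic =>
  if (ic.2 : ℕ) < g ic.1 then 1 else 0

theorem col_le {n : ℕ} {g : ℕ → ℕ} (hg : Antitone g) (c : ℕ) :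
    energy (chain n) (fun i => if c < g i then 1 else 0) ≤ if g n ≤ c ∧ c < g 0 then 1 else 0 := by
  have e : ∀ a, a < n + 1 → ext' (fun i : Fin (n + 1) => if c < g i then (1 : ZMod 2) else 0) a =
      if c < g a then 1 else 0 := by
    intro a ha
    simp [ext', ha]
  split_ifs with h
  · rw [energy_eq_sum, ← card_filter, card_le_one]
    intro s hs t ht
    rw [mem_filter, chain_mul, e _ (by omega), e _ (by omega)] at hs ht
    have key : ∀ s : ℕ, ((if c < g s then (1 : ZMod 2) else 0) + (if c < g (s + 1) then 1 else 0)) ≠ 0 →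
        c < g s ∧ g (s + 1) ≤ c := by
      intro s hs
      have h2 := hg (Nat.le_succ s)
      by_contra hne
      apply hs
      by_cases h1 : c < g s
      · have h2 : c < g (s + 1) := by
          by_contra h3
          exact hne ⟨h1, by omega⟩
        simp only [h1, h2, if_true]
        exact two_zmod
      · have h2 : ¬ c < g (s + 1) := by simp only [Nat.succ_eq_add_one] at h2; omega
        simp [h1, h2]
    obtain ⟨a1, a2⟩ := key s hs.2
    obtain ⟨b1, b2⟩ := key t ht.2
    apply Fin.ext
    by_contra hne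
    rcases lt_or_gt_of_ne hne with h3 | h3
    · have := hg (Nat.succ_le_of_lt h3)
      simp only [Nat.succ_eq_add_one] at this
      omega
    · have := hg (Nat.succ_le_of_lt h3)
      simp only [Nat.succ_eq_add_one] at this
      omega
  · rw [energy_eq_sum]
    apply le_of_eq
    apply sum_eq_zero
    intro s _
    rw [if_neg]
    rw [not_not, chain_mul, e _ (by omega), e _ (by omega)]
    have b1 : g (n) ≤ g s := hg (by omega)
    have b2 : g (n) ≤ g (s + 1) := hg (by omega)
    have b3 : g s ≤ g 0 := hg (by omega)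
    have b4 : g (s + 1) ≤ g 0 := hg (by omega)
    by_cases h1 : c < g n
    · have h2 : c < g s := by omega
      have h3 : c < g (s + 1) := by omega
      simp only [h2, h3, if_true]
      exact two_zmod
    · have h2 : ¬ c < g s := by
        intro h4
        exact h ⟨by omega, by omega⟩
      have h3 : ¬ c < g (s + 1) := by
        intro h4
        exact h ⟨by omega, by omega⟩
      simp [h2, h3]

theorem cols_le {n l : ℕ} {g : ℕ → ℕ} (hg : Antitone g) (h2 : g 0 ≤ g n + 2) :
    ∑ c : Fin (l + 1), energy (chain n) (fun i => S n l g (i, c)) ≤ 2 := by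
  calc ∑ c : Fin (l + 1), energy (chain n) (fun i => S n l g (i, c))
      ≤ ∑ c : Fin (l + 1), (if g n ≤ (c : ℕ) ∧ (c : ℕ) < g 0 then 1 else 0) :=
        sum_le_sum fun c _ => col_le hg c
    _ = (univ.filter fun c : Fin (l + 1) => g n ≤ (c : ℕ) ∧ (c : ℕ) < g 0).card := by
        rw [card_filter]
    _ ≤ (Ico (g n) (g 0)).card := by
        apply card_le_card_of_injOn (fun c : Fin (l + 1) => (c : ℕ))
        · intro c hc
          simp only [coe_filter, mem_univ, true_and, Set.mem_ofPred_eq] at hc
          simpa using hc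
        · intro a _ b _ hab
          exact Fin.ext hab
    _ ≤ 2 := by rw [Nat.card_Ico]; omega

theorem energy_S {n l M : ℕ} (h : 2 * M + 1 ≤ l) {g : ℕ → ℕ} (hg : Antitone g)
    (h2 : g 0 ≤ g n + 2) (r : ℕ) (hr : ∀ i, i ≠ r → g i ≠ 2 * M + 1) :
    energy (product (chain n) (heavy l M)) (S n l g) ≤ 2 * (n + 1) + M + 4 := by
  rw [energy_prod]
  have h3 := cols_le (n := n) (l := l) hg h2
  have h4 : ∑ i : Fin (n + 1), energy (heavy l M) (fun c => S n l g (i, c)) ≤
      2 * (n + 1) + M + 2 := by
    have h5 : ∀ i : Fin (n + 1), energy (heavy l M) (fun c => S n l g (i, c)) ≤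
        2 + (if (i : ℕ) = r then M + 2 else 0) := by
      intro i
      have e : (fun c => S n l g (i, c)) = pre (l + 1) (g i) := rfl
      rw [e]
      split_ifs with h6
      · exact (heavy_pre' h _).trans (by omega)
      · exact heavy_pre h (hr i h6)
    refine (sum_le_sum fun i _ => h5 i).trans ?_
    rw [sum_add_distrib]
    have h6 : ∑ i : Fin (n + 1), (if (i : ℕ) = r then M + 2 else 0) ≤ M + 2 := by
      rw [← sum_filter, sum_const, smul_eq_mul]
      have : (univ.filter fun i : Fin (n + 1) => (i : ℕ) = r).card ≤ 1 := by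
        rw [card_le_one]
        intro a ha b hb
        rw [mem_filter] at ha hb
        exact Fin.ext (ha.2.trans hb.2.symm)
      nlinarith
    simp only [sum_const, card_univ, Fintype.card_fin, smul_eq_mul]
    omega
  omega

/-- the bound -/
abbrev Bd (n M : ℕ) : ℕ := 2 * (n + 1) + M + 4

/-- the relation: one flip and small energy -/
abbrev R (n l M : ℕ) : (Fin (n + 1) × Fin (l + 1) → ZMod 2) →
    (Fin (n + 1) × Fin (l + 1) → ZMod 2) → Prop :=
  fun a b => hammingDist a b = 1 ∧ energy (product (chain n) (heavy l M)) b ≤ Bd n M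

theorem S_congr {n l : ℕ} {g g' : ℕ → ℕ} (h : ∀ i ≤ n, g i = g' i) : S n l g = S n l g' := by
  funext ic
  unfold S
  rw [h _ (by omega)]

theorem dist_S {n l : ℕ} {g : ℕ → ℕ} {r : ℕ} (hr : r ≤ n) (hl : g r < l + 1) :
    hammingDist (S n l g) (S n l (Function.update g r (g r + 1))) = 1 := by
  have : S n l (Function.update g r (g r + 1)) =
      Function.update (S n l g) (⟨r, by omega⟩, ⟨g r, hl⟩) 1 := by
    funext ic
    obtain ⟨i, c⟩ := ic
    by_cases h1 : (i, c) = ((⟨r, by omega⟩ : Fin (n + 1)), (⟨g r, hl⟩ : Fin (l + 1)))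
    · rw [h1]
      simp [S]
    · rw [Function.update_of_ne h1]
      unfold S
      simp only
      by_cases h2 : (i : ℕ) = r
      · rw [h2, Function.update_self]
        have h3 : (c : ℕ) ≠ g r := by
          intro h3
          apply h1
          ext
          · exact h2
          · exact h3
        by_cases h4 : (c : ℕ) < g r
        · simp [h4, Nat.lt_succ_of_lt h4]
        · have : ¬ (c : ℕ) < g r + 1 := by omega
          simp [h4, this]
      · rw [Function.update_of_ne h2]
  rw [this]
  apply dist_update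
  simp [S]

theorem step {n l M : ℕ} (h : 2 * M + 1 ≤ l) {g : ℕ → ℕ} {r : ℕ} (hr : r ≤ n) (hl : g r < l + 1)
    (g' : ℕ → ℕ) (hg' : ∀ i ≤ n, g' i = Function.update g r (g r + 1) i)
    (ha : Antitone g') (h2 : g' 0 ≤ g' n + 2)
    (q : ℕ) (hq : ∀ i, i ≠ q → g' i ≠ 2 * M + 1) : R n l M (S n l g) (S n l g') := by
  refine ⟨?_, energy_S h ha h2 q hq⟩
  rw [S_congr hg']
  exact dist_S hr hl

/-- one column -/
theorem phase1 {n l M : ℕ} (h : 2 * M + 1 ≤ l) {p : ℕ} (hp : p < l + 1) (h1 : p ≠ 2 * M + 1)
    (h2 : p ≠ 2 * M) :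
    ReflTransGen (R n l M) (S n l fun _ => p) (S n l fun _ => p + 1) := by
  have key : ∀ r, r ≤ n + 1 → ReflTransGen (R n l M) (S n l fun _ => p)
      (S n l fun i => if i < r then p + 1 else p) := by
    intro r
    induction r with
    | zero => intro _; simpa using ReflTransGen.refl
    | succ r ih =>
      intro hr
      refine (ih (by omega)).tail (step h (r := r) (by omega) (by simpa using hp) _ ?_ ?_ ?_ 0 ?_)
      · intro i _
        by_cases hi : i = r
        · subst hi; simp
        · rw [Function.update_of_ne hi]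
          by_cases h3 : i < r
          · simp [h3, Nat.lt_succ_of_lt h3]
          · have : ¬ i < r + 1 := by omega
            simp [h3, this]
      · intro a b hab
        beta_reduce
        split_ifs <;> omega
      · beta_reduce
        split_ifs <;> omega
      · intro i _
        beta_reduce
        split_ifs <;> omega
  have h3 := key (n + 1) le_rfl
  have e : S n l (fun i => if i < n + 1 then p + 1 else p) = S n l fun _ => p + 1 :=
    S_congr fun i hi => if_pos (by omega)
  rw [e] at h3
  exact h3

/-- the heavy bond -/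
theorem phase2 {n l M : ℕ} (h : 2 * M + 1 ≤ l) :
    ReflTransGen (R n l M) (S n l fun _ => 2 * M) (S n l fun _ => 2 * M + 2) := by
  have key : ∀ r, r ≤ n + 1 → ReflTransGen (R n l M) (S n l fun _ => 2 * M)
      (S n l fun i => if i < r then 2 * M + 2 else 2 * M) := by
    intro r
    induction r with
    | zero => intro _; simpa using ReflTransGen.refl
    | succ r ih =>
      intro hr
      refine ((ih (by omega)).tail (step h (r := r) (by omega) (by simp; omega)
        (fun i => if i < r then 2 * M + 2 else if i = r then 2 * M + 1 else 2 * M)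
        ?_ ?_ ?_ r ?_)).tail (step h (r := r) (by omega) (by simp; omega) _ ?_ ?_ ?_ 0 ?_)
      · intro i _
        by_cases hi : i = r
        · subst hi; simp
        · rw [Function.update_of_ne hi]
          simp [hi]
      · intro a b hab
        beta_reduce
        split_ifs <;> omega
      · beta_reduce
        split_ifs <;> omega
      · intro i hi
        beta_reduce
        split_ifs <;> omega
      · intro i _
        by_cases hi : i = r
        · subst hi; simp
        · rw [Function.update_of_ne hi]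
          by_cases h3 : i < r
          · simp [h3, Nat.lt_succ_of_lt h3]
          · have : ¬ i < r + 1 := by omega
            simp [h3, this, hi]
      · intro a b hab
        beta_reduce
        split_ifs <;> omega
      · beta_reduce
        split_ifs <;> omega
      · intro i _
        beta_reduce
        split_ifs <;> omega
  have h3 := key (n + 1) le_rfl
  have e : S n l (fun i => if i < n + 1 then 2 * M + 2 else 2 * M) = S n l fun _ => 2 * M + 2 :=
    S_congr fun i hi => if_pos (by omega)
  rw [e] at h3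
  exact h3

theorem full_path {n l M : ℕ} (h : 2 * M + 1 ≤ l) :
    ReflTransGen (R n l M) (S n l fun _ => 0) (S n l fun _ => l + 1) := by
  have a : ∀ p, p ≤ 2 * M → ReflTransGen (R n l M) (S n l fun _ => 0) (S n l fun _ => p) := by
    intro p
    induction p with
    | zero => intro _; exact ReflTransGen.refl
    | succ p ih =>
      intro hp
      exact (ih (by omega)).trans (phase1 h (by omega) (by omega) (by omega))
  have b := (a (2 * M) le_rfl).trans (phase2 (n := n) h)
  have c : ∀ p, 2 * M + 2 ≤ p → p ≤ l + 1 →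
      ReflTransGen (R n l M) (S n l fun _ => 0) (S n l fun _ => p) := by
    intro p hp
    induction p, hp using Nat.le_induction with
    | base => intro _; exact b
    | succ p hp ih =>
      intro hl
      exact (ih (by omega)).trans (phase1 h (by omega) (by omega) (by omega))
  exact c (l + 1) (by omega) le_rfl

theorem product_barrier {n l M : ℕ} (h : 2 * M + 1 ≤ l) :
    codeBarrier (product (chain n) (heavy l M)) ≤ Bd n M := by
  have e0 : S n l (fun _ => 0) = 0 := by
    funext ic
    simp [S]
  have e1 : S n l (fun _ => l + 1) = fun _ => 1 := by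
    funext ic
    simp only [S]
    rw [if_pos ic.2.2]
  have hne : (fun _ => 1 : Fin (n + 1) × Fin (l + 1) → ZMod 2) ≠ 0 := by
    intro h
    have := congrFun h (0, 0)
    simp at this
  have hker : (product (chain n) (heavy l M)).mulVec (fun _ => 1) = 0 := by
    funext r
    rcases r with ⟨s, c⟩ | ⟨i, t⟩
    · rw [prod_inl, chain_one]; rfl
    · rw [prod_inr, heavy_one h]; rfl
  refine barrier_le hne hker ?_
  have hp := full_path (n := n) h
  rw [e0, e1] at hp
  refine path_of_rel ?_ hp
  rw [← e0]
  exact energy_S h (fun _ _ _ => le_rfl) (by omega) 0 (fun _ _ => by omega)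

theorem main (K : ℕ) : ∃ (ma na mb nb : Type) (_ : Fintype ma) (_ : Fintype na) (_ : Fintype mb)
    (_ : Fintype nb) (_ : DecidableEq na) (_ : DecidableEq nb)
    (δa : Matrix ma na (ZMod 2)) (δb : Matrix mb nb (ZMod 2)),
    (∃ x, x ≠ 0 ∧ δa.mulVec x = 0) ∧ (∃ x, x ≠ 0 ∧ δb.mulVec x = 0) ∧
    K * codeBarrier (product δa δb) <
      min (minDistance δa * codeBarrier δb) (codeBarrier δa * minDistance δb) := by
  -- `n + 1 = M = N`, `l + 1 = N ^ 2 + 2 N + 2`
  set N : ℕ := 3 * K + 5 with hN
  have hl : 2 * N + 1 ≤ N * N + 2 * N + 1 := by nlinarith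
  refine ⟨Fin (N - 1), Fin (N - 1 + 1), Fin (N * N + 2 * N + 1) ⊕ Fin N,
    Fin (N * N + 2 * N + 1 + 1), inferInstance, inferInstance, inferInstance, inferInstance,
    inferInstance, inferInstance, chain (N - 1), heavy (N * N + 2 * N + 1) N,
    ⟨_, one_ne, chain_one _⟩, ⟨_, one_ne, heavy_one hl⟩, ?_⟩
  have h1 := product_barrier (n := N - 1) hl
  have h2 := chain_dist (N - 1)
  have h3 := heavy_dist hl
  have h4 := chain_barrier (l := N - 1) (by omega)
  have h5 := heavy_barrier hl
  unfold Bd at h1
  replace h1 := h1.trans (show 2 * (N - 1 + 1) + N + 4 ≤ 2 * N + N + 4 by omega)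
  replace h2 := (show N ≤ N - 1 + 1 by omega).trans h2
  have h6 : K * (2 * N + N + 4) < N * N := by
    rw [hN]; nlinarith
  have h7 : K * codeBarrier (product (chain (N - 1)) (heavy (N * N + 2 * N + 1) N)) < N * N :=
    lt_of_le_of_lt (Nat.mul_le_mul_left K h1) h6
  apply lt_min
  · exact lt_of_lt_of_le h7 (Nat.mul_le_mul h2 h5)
  · refine lt_of_lt_of_le h7 ?_
    calc N * N ≤ 1 * (N * N + 2 * N + 1 + 1) := by omega
      _ ≤ _ := Nat.mul_le_mul h4 h3

end Q223.Energy
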