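import Mathlib
import Pool.Agent.Q61.MH.Stm

set_option autoImplicit false

namespace Pool.Agent.Q223.MH_SUPR

open Pool.Agent.Q61.MH

theorem supr (h1 : S_jump) (h2 : S_tail) (h3 : S_mom) (h4 : S_abel) : S_supr := by
  intro r M hr hM hG
  unfold s
  refine iSup_le fun q => iSup_le fun φ => iSup_le fun hq => iSup_le fun hφ => iSup_le fun hm => ?_
  obtain ⟨hmom, hMo0⟩ := h3 q r hq hr
  have hMo : Mo r q ≠ ⊤ := by
    intro h
    apply hm
    rw [hmom, h]
    exact ENNReal.mul_top (by norm_num)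
  refine ENNReal.div_le_of_le_mul ?_
  rw [h1 q φ r hq hφ hr]
  have hsum : ∑' z : ℤ, ENNReal.ofReal (φ z) = 1 := by
    rw [← ENNReal.ofReal_tsum_of_nonneg hφ.nonneg hφ.hasSum.summable, hφ.hasSum.tsum_eq,
      ENNReal.ofReal_one]
  have hz : ∀ z : ℤ, ENNReal.ofReal (φ z * |(z : ℝ)| ^ r) *
      ∑' x : ℤ, ENNReal.ofReal (min (q x) (q (x + z))) ≤
        ENNReal.ofReal (φ z) * (ENNReal.ofReal M * mom r q) := by
    intro z
    rcases Int.even_or_odd z with he | ho
    · rw [hφ.odd z he]; simp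
    · obtain ⟨y, hy⟩ : ∃ y : ℕ, z = 2 * (y : ℤ) + 1 ∨ z = -(2 * (y : ℤ) + 1) := by
        obtain ⟨m, hm⟩ := ho
        rcases le_or_gt 0 m with h | h
        · exact ⟨m.toNat, Or.inl (by omega)⟩
        · exact ⟨(-m-1).toNat, Or.inr (by omega)⟩
      rw [h2 q hq y z hy]
      have habs : |(z : ℝ)| = 2 * (y : ℝ) + 1 := by
        rcases hy with rfl | rfl
        · push_cast; rw [abs_of_nonneg (by positivity)]
        · push_cast; rw [abs_neg, abs_of_nonneg (by positivity)]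
      rw [habs, ENNReal.ofReal_mul (hφ.nonneg z), hmom]
      have := h4 q r M hq hr hM hG hMo y
      calc ENNReal.ofReal (φ z) * ENNReal.ofReal ((2 * (y : ℝ) + 1) ^ r) * (2 * T q y)
          = ENNReal.ofReal (φ z) * (2 * (ENNReal.ofReal ((2 * (y : ℝ) + 1) ^ r) * T q y)) := by ring
        _ ≤ ENNReal.ofReal (φ z) * (2 * (ENNReal.ofReal M * Mo r q)) := by gcongr
        _ = _ := by ring
  calc _ ≤ ∑' z : ℤ, ENNReal.ofReal (φ z) * (ENNReal.ofReal M * mom r q) :=
        ENNReal.tsum_le_tsum hz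
    _ = ENNReal.ofReal M * mom r q := by rw [ENNReal.tsum_mul_right, hsum, one_mul]

end Pool.Agent.Q223.MH_SUPR
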