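import Mathlib
import Pool.Agent.Q16.SQ.Stm5
import Pool.Agent.Helper549.Tri.Basic

/-! JOB LINESUM of project SQ (helper16), MP_a03157_co: sum over all lines. -/

set_option autoImplicit false
noncomputable section
open scoped BigOperators
open Pool.Agent.Helper549.Tri Pool.Agent.Helper549.Tri.Basic Q16.SQ

namespace Pool.Agent.Q223.SQLS

open Classical in
/-- one side: the sum over a finite set of lines which contains `(d, l)` and `(-d, -l)` -/
theorem side_two (F : Finset (ℂ × ℝ)) (d : ℂ) (l : ℝ) (hd : d ≠ 0) (h1 : (d, l) ∈ F)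
    (h2 : (-d, -l) ∈ F) (H : ℂ → ℝ → ℂ → ℝ) (hH : ∀ u s z, H (-u) (-s) z = H u s z) (z w : ℂ) :
    (∑ x ∈ F, if (d = x.1 ∧ l = x.2) ∨ (d = -x.1 ∧ l = -x.2) then H x.1 x.2 z - H x.1 x.2 w
      else 0) = 2 * (H d l z - H d l w) := by
  have hne : ((d, l) : ℂ × ℝ) ≠ (-d, -l) := by
    intro h
    have h3 : d = -d := congrArg Prod.fst h
    apply hd
    have h4 : (2 : ℂ) * d = 0 := by linear_combination h3
    simpa using h4
  have hsub : ({(d, l), (-d, -l)} : Finset (ℂ × ℝ)) ⊆ F := by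
    intro x hx
    rw [Finset.mem_insert, Finset.mem_singleton] at hx
    rcases hx with rfl | rfl
    · exact h1
    · exact h2
  rw [← Finset.sum_subset hsub]
  · rw [Finset.sum_pair hne]
    rw [if_pos (show ((d = ((d, l) : ℂ × ℝ).1 ∧ l = ((d, l) : ℂ × ℝ).2) ∨
        (d = -((d, l) : ℂ × ℝ).1 ∧ l = -((d, l) : ℂ × ℝ).2)) from Or.inl ⟨rfl, rfl⟩),
      if_pos (show ((d = ((-d, -l) : ℂ × ℝ).1 ∧ l = ((-d, -l) : ℂ × ℝ).2) ∨
        (d = -((-d, -l) : ℂ × ℝ).1 ∧ l = -((-d, -l) : ℂ × ℝ).2)) from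
          Or.inr ⟨(neg_neg d).symm, (neg_neg l).symm⟩)]
    show H d l z - H d l w + (H (-d) (-l) z - H (-d) (-l) w) = 2 * (H d l z - H d l w)
    rw [hH, hH]
    ring
  · intro x _ hx
    apply if_neg
    intro h
    apply hx
    rw [Finset.mem_insert, Finset.mem_singleton]
    rcases h with ⟨h, h'⟩ | ⟨h, h'⟩
    · left
      exact Prod.ext h.symm h'.symm
    · right
      apply Prod.ext
      · show x.1 = -d
        rw [h, neg_neg]
      · show x.2 = -l
        rw [h', neg_neg]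

theorem t_LINESUM (h : S_LINEH) : S_LINESUM := by
  classical
  intro N T t hD H hH
  set A : Finset (ℂ × ℝ) :=
    (Finset.univ.image fun p : Fin N × Fin 3 => (dir (t p.1) p.2, lev (t p.1) p.2)) ∪
      (Finset.univ.image fun k : Fin 3 => (dir T k, lev T k)) with hA
  set F : Finset (ℂ × ℝ) := (A ∪ A.image fun x => (-x.1, -x.2)).filter (fun x => ‖x.1‖ = 1)
    with hF
  have hdt : ∀ i k, ‖dir (t i) k‖ = 1 := fun i k => norm_dir (t i) (hD.ccwt i) k
  have hdT : ∀ k, ‖dir T k‖ = 1 := fun k => norm_dir T hD.ccwT k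
  have hne : ∀ u : ℂ, ‖u‖ = 1 → u ≠ 0 := by
    intro u hu h0
    rw [h0, norm_zero] at hu
    exact zero_ne_one hu
  have hFA : ∀ x ∈ A, ‖x.1‖ = 1 → x ∈ F ∧ (-x.1, -x.2) ∈ F := by
    intro x hx hx1
    constructor
    · rw [hF, Finset.mem_filter]
      exact ⟨Finset.mem_union_left _ hx, hx1⟩
    · rw [hF, Finset.mem_filter]
      refine ⟨Finset.mem_union_right _ (Finset.mem_image_of_mem _ hx), ?_⟩
      rw [norm_neg]
      exact hx1
  have hAt : ∀ i k, (dir (t i) k, lev (t i) k) ∈ A := by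
    intro i k
    rw [hA]
    apply Finset.mem_union_left
    rw [Finset.mem_image]
    exact ⟨(i, k), Finset.mem_univ _, rfl⟩
  have hAT : ∀ k, (dir T k, lev T k) ∈ A := by
    intro k
    rw [hA]
    apply Finset.mem_union_right
    rw [Finset.mem_image]
    exact ⟨k, Finset.mem_univ _, rfl⟩
  have hsum : ∑ x ∈ F, (∑ i, ∑ k : Fin 3, if (dir (t i) k = x.1 ∧ lev (t i) k = x.2) ∨
        (dir (t i) k = -x.1 ∧ lev (t i) k = -x.2) then
        H x.1 x.2 (t i (k + 2)) - H x.1 x.2 (t i (k + 1)) else 0) =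
      ∑ x ∈ F, ∑ k : Fin 3, if (dir T k = x.1 ∧ lev T k = x.2) ∨
        (dir T k = -x.1 ∧ lev T k = -x.2) then
        H x.1 x.2 (T (k + 2)) - H x.1 x.2 (T (k + 1)) else 0 := by
    apply Finset.sum_congr rfl
    intro x hx
    have hx1 : ‖x.1‖ = 1 := (Finset.mem_filter.1 hx).2
    have h1 := h hD x.1 x.2 hx1 (H x.1 x.2)
    convert! h1 using 1
  rw [Finset.sum_comm] at hsum
  have e1 : ∀ i, ∑ x ∈ F, ∑ k : Fin 3, (if (dir (t i) k = x.1 ∧ lev (t i) k = x.2) ∨
        (dir (t i) k = -x.1 ∧ lev (t i) k = -x.2) then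
        H x.1 x.2 (t i (k + 2)) - H x.1 x.2 (t i (k + 1)) else 0) =
      ∑ k : Fin 3, 2 * (H (dir (t i) k) (lev (t i) k) (t i (k + 2)) -
        H (dir (t i) k) (lev (t i) k) (t i (k + 1))) := by
    intro i
    rw [Finset.sum_comm]
    apply Finset.sum_congr rfl
    intro k _
    have h2 := hFA _ (hAt i k) (hdt i k)
    exact side_two F _ _ (hne _ (hdt i k)) h2.1 h2.2 H hH _ _
  have e2 : ∑ x ∈ F, ∑ k : Fin 3, (if (dir T k = x.1 ∧ lev T k = x.2) ∨
        (dir T k = -x.1 ∧ lev T k = -x.2) then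
        H x.1 x.2 (T (k + 2)) - H x.1 x.2 (T (k + 1)) else 0) =
      ∑ k : Fin 3, 2 * (H (dir T k) (lev T k) (T (k + 2)) -
        H (dir T k) (lev T k) (T (k + 1))) := by
    rw [Finset.sum_comm]
    apply Finset.sum_congr rfl
    intro k _
    have h2 := hFA _ (hAT k) (hdT k)
    exact side_two F _ _ (hne _ (hdT k)) h2.1 h2.2 H hH _ _
  rw [e2, Finset.sum_congr rfl (fun i _ => e1 i)] at hsum
  simp_rw [← Finset.mul_sum] at hsum
  exact mul_left_cancel₀ two_ne_zero hsum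

end Pool.Agent.Q223.SQLS
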