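import Mathlib

/-!
# MP_593d43_lc: definitions (orthogonal functions, span n sequences, linear span)
-/

set_option autoImplicit false

namespace Q223.SpanN

/-- orthogonal functions on a finite field -/
def Orthogonal {K : Type} [Field K] [Fintype K] (g : K → ZMod 2) : Prop :=
  ∀ l : K, l ≠ 1 → ∑ x : K, (-1 : ℤ) ^ (g (l * x) + g x).val = 0

/-- `g` is an affine function of the coordinates with respect to `1, α, …, α ^ (m - 1)` -/
def AffineInCoordinates {K : Type} [Field K] [Algebra (ZMod 2) K] (m : ℕ) (α : K)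
    (g : K → ZMod 2) : Prop :=
  ∃ (a : Fin m → ZMod 2) (b : ZMod 2), ∀ x : Fin m → ZMod 2,
    g (∑ i : Fin m, x i • α ^ (i : ℕ)) = b + ∑ i : Fin m, a i * x i

/-- `s_{k+n} = c + s_k + g(s_{k+r₁}, …, s_{k+r_m})` for all `k`, where `𝔽₂^m` is identified with `K`
through the coordinates with respect to `1, α, …, α ^ (m - 1)` -/
def Generated {K : Type} [Field K] [Algebra (ZMod 2) K] (m n : ℕ) (α : K)
    (g : K → ZMod 2) (c : ZMod 2) (r : Fin m → ℕ) (s : ℕ → ZMod 2) : Prop :=
  ∀ k, s (k + n) = c + s k + g (∑ i : Fin m, s (k + r i) • α ^ (i : ℕ))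

/-- span `n` sequences: period `2 ^ n - 1`, and each nonzero `n`-tuple occurs exactly once among the
windows of one period -/
def SpanSequence (n : ℕ) (s : ℕ → ZMod 2) : Prop :=
  (∀ k, s (k + (2 ^ n - 1)) = s k) ∧
  ∀ w : Fin n → ZMod 2, w ≠ 0 → ∃! k, k < 2 ^ n - 1 ∧ ∀ i : Fin n, s (k + i) = w i

/-- linear span: the length of the shortest linear feedback shift register which generates `s` -/
noncomputable def linearSpan (s : ℕ → ZMod 2) : ℕ :=
  sInf {L | ∃ a : Fin L → ZMod 2, ∀ k, s (k + L) = ∑ i : Fin L, a i * s (k + i)}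

end Q223.SpanN
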