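import Mathlib
import Pool.Agent.Q223.SpanNData
import Pool.Agent.Q223.SpanNDefs

/-!
# MP_593d43_lc: proof
-/

set_option autoImplicit false

namespace Q223.SpanN

open Polynomial Finset

/-- bits in `𝔽₂` -/
def b2 (b : Bool) : ZMod 2 := if b then 1 else 0

theorem b2_xor : ∀ a b : Bool, b2 (a ^^ b) = b2 a + b2 b := by decide
theorem b2_inj : ∀ a b : Bool, b2 a = b2 b → a = b := by decide
theorem b2_sur : ∀ a : ZMod 2, b2 (decide (a = 1)) = a := by decide

/-- the sequence -/
def s (k : ℕ) : ZMod 2 := b2 (B.testBit (k % 4095))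

theorem s_per (k : ℕ) : s (k + 4095) = s k := by simp [s]

theorem B_big {i : ℕ} (h : 4095 ≤ i) : B.testBit i = false :=
  Nat.testBit_eq_false_of_lt (lt_of_lt_of_le B_lt (Nat.pow_le_pow_right (by norm_num) h))

theorem BB_bit {k : ℕ} (h : k < 8190) : BB.testBit k = B.testBit (k % 4095) := by
  unfold BB
  rw [Nat.testBit_or, Nat.testBit_shiftLeft]
  rcases lt_or_ge k 4095 with h1 | h1
  · rw [Nat.mod_eq_of_lt h1]
    simp [Nat.not_le.2 h1]
  · rw [B_big h1]
    have : k % 4095 = k - 4095 := by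
      rw [Nat.mod_eq_sub_mod h1, Nat.mod_eq_of_lt (by omega)]
    simp [h1, this]

theorem s_add (k j : ℕ) (hj : j ≤ 4095) : s (k + j) = b2 (BB.testBit (k % 4095 + j)) := by
  have : k % 4095 < 4095 := Nat.mod_lt _ (by norm_num)
  rw [BB_bit (by omega)]
  unfold s
  congr 2
  omega

/-! ### span property -/

theorem W_bit (k i : ℕ) (hi : i < 12) : (W k).testBit i = BB.testBit (k + i) := by
  unfold W
  rw [Nat.testBit_mod_two_pow, Nat.testBit_shiftRight]
  simp [hi]

theorem W_lt (k : ℕ) : W k < 2 ^ 12 := Nat.mod_lt _ (by norm_num)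

theorem pos_W {k : ℕ} (hk : k < 4095) : pos (W k) = k := by
  have := allR_spec _ 12 0 check2a k (Nat.zero_le _) (by omega)
  simpa [Nat.not_le.2 hk] using this

theorem W_pos {w : ℕ} (h0 : w ≠ 0) (hw : w < 2 ^ 12) : pos w < 4095 ∧ W (pos w) = w := by
  have := allR_spec _ 12 0 check2b w (Nat.zero_le _) (by simpa using hw)
  simpa [h0] using this

theorem span : SpanSequence 12 s := by
  refine ⟨fun k => s_per k, fun w hw => ?_⟩
  let f : Fin 12 → Bool := fun i => decide (w i = 1)
  have hlt : Nat.ofBits f < 2 ^ 12 := Nat.ofBits_lt_two_pow f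
  have hbit : ∀ i : Fin 12, (Nat.ofBits f).testBit i = f i := fun i => by
    rw [Nat.testBit_ofBits_lt f i i.2]
  have h0 : Nat.ofBits f ≠ 0 := by
    intro h
    apply hw
    funext i
    have h1 := hbit i
    rw [h] at h1
    simp only [Nat.zero_testBit] at h1
    have h2 := b2_sur (w i)
    rw [← show f i = decide (w i = 1) from rfl, ← h1] at h2
    simpa [b2] using h2.symm
  obtain ⟨hp, hW⟩ := W_pos h0 hlt
  refine ⟨pos (Nat.ofBits f), ⟨hp, fun i => ?_⟩, ?_⟩
  · rw [s_add _ _ (by omega), Nat.mod_eq_of_lt hp, ← W_bit _ _ i.2, hW, hbit]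
    exact b2_sur (w i)
  · rintro k ⟨hk, hk2⟩
    have hk' : k < 4095 := hk
    have : W k = Nat.ofBits f := by
      apply Nat.eq_of_testBit_eq
      intro i
      rcases lt_or_ge i 12 with hi | hi
      · have h1 := hk2 ⟨i, hi⟩
        rw [s_add _ _ (by simp only; omega), Nat.mod_eq_of_lt hk'] at h1
        simp only at h1
        rw [← W_bit _ _ hi] at h1
        have h2 := hbit ⟨i, hi⟩
        simp only at h2
        rw [h2]
        apply b2_inj
        rw [h1]
        exact (b2_sur _).symm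
      · rw [Nat.testBit_eq_false_of_lt (lt_of_lt_of_le (W_lt k)
            (Nat.pow_le_pow_right (by norm_num) hi)),
          Nat.testBit_eq_false_of_lt (lt_of_lt_of_le hlt
            (Nat.pow_le_pow_right (by norm_num) hi))]
    rw [← this, pos_W hk']

/-! ### linear span -/

theorem xr_bit (k : ℕ) : ∀ j a, b2 ((xr j a).testBit k) =
    ∑ i ∈ Ico a (a + 2 ^ j), b2 (A.testBit i) * b2 (BB.testBit (i + k))
  | 0, a => by
    simp only [xr, pow_zero, Nat.Ico_succ_singleton, sum_singleton]
    cases h : A.testBit a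
    · simp [b2]
    · simp [b2, Nat.testBit_shiftRight]
  | j + 1, a => by
    have e : a + 2 ^ (j + 1) = a + 2 ^ j + 2 ^ j := by rw [pow_succ]; omega
    rw [e, ← sum_Ico_consecutive _ (Nat.le_add_right a (2 ^ j)) (Nat.le_add_right _ (2 ^ j)),
      ← xr_bit k j a, ← xr_bit k j (a + 2 ^ j), ← b2_xor]
    simp only [xr, Nat.testBit_xor]

theorem A_big {i : ℕ} (h : 4052 ≤ i) : A.testBit i = false :=
  Nat.testBit_eq_false_of_lt (lt_of_lt_of_le A_lt (Nat.pow_le_pow_right (by norm_num) h))

theorem rec0 {k : ℕ} (hk : k < 4095) :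
    ∑ i ∈ range 4052, b2 (A.testBit i) * b2 (BB.testBit (i + k)) = 0 := by
  have h1 := xr_bit k 12 0
  have h2 : (xr 12 0).testBit k = false := by
    have h3 := congrArg (fun x : ℕ => x.testBit k) check3
    simp only [Nat.testBit_mod_two_pow, Nat.zero_testBit] at h3
    simpa [hk] using h3
  rw [h2] at h1
  have h4 : ∑ i ∈ Ico 0 (0 + 2 ^ 12), b2 (A.testBit i) * b2 (BB.testBit (i + k)) =
      ∑ i ∈ range 4052, b2 (A.testBit i) * b2 (BB.testBit (i + k)) := by
    symm
    apply sum_subset
    · intro i hi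
      rw [mem_range] at hi
      rw [mem_Ico]
      constructor
      · omega
      · norm_num; omega
    · intro i _ hi
      rw [mem_range, not_lt] at hi
      rw [A_big hi]
      simp [b2]
  rw [← h4, ← h1]
  rfl

theorem rec1 (k : ℕ) : s (k + 4051) = ∑ i : Fin 4051, b2 (A.testBit i) * s (k + i) := by
  have hk : k % 4095 < 4095 := Nat.mod_lt _ (by norm_num)
  have h := rec0 hk
  rw [sum_range_succ, A_top] at h
  have h1 : ∀ a b : ZMod 2, a + b = 0 → b = a := by decide
  have h2 := h1 _ _ h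
  rw [show b2 true = 1 from rfl, one_mul] at h2
  rw [s_add k 4051 (by norm_num), add_comm (k % 4095) 4051, h2, Finset.sum_range]
  refine Finset.sum_congr rfl fun i _ => ?_
  rw [s_add k i (by omega), add_comm]

theorem span_le : linearSpan s ≤ 4051 :=
  Nat.sInf_le ⟨fun i => b2 (A.testBit i), rec1⟩

/-! ### the field -/

/-- the polynomial `X^7 + X^3 + 1` -/
noncomputable def P : (ZMod 2)[X] := X ^ 7 + X ^ 3 + 1

theorem pow128 {R : Type*} [CommRing R] [CharP R 2] {a : R} (h : a ^ 7 + a ^ 3 + 1 = 0) :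
    a ^ 128 = a := by
  have h7 : a ^ 7 = a ^ 3 + 1 := by
    have := CharTwo.add_self_eq_zero (a ^ 3 + 1)
    linear_combination h - this
  have h8 : a ^ 8 = a ^ 4 + a := by
    rw [show a ^ 8 = a ^ 7 * a by ring, h7]; ring
  have h16 : a ^ 16 = a ^ 4 + a + a ^ 2 := by
    rw [show a ^ 16 = (a ^ 8) ^ 2 by ring, h8, CharTwo.add_sq, show (a ^ 4) ^ 2 = a ^ 8 by ring, h8]
  have h32 : a ^ 32 = a ^ 2 + a := by
    rw [show a ^ 32 = (a ^ 16) ^ 2 by ring, h16, CharTwo.add_sq, CharTwo.add_sq,
      show (a ^ 4) ^ 2 = a ^ 8 by ring, h8]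
    have := CharTwo.add_self_eq_zero (a ^ 4)
    linear_combination this
  have h64 : a ^ 64 = a ^ 4 + a ^ 2 := by
    rw [show a ^ 64 = (a ^ 32) ^ 2 by ring, h32, CharTwo.add_sq]
    ring
  rw [show a ^ 128 = (a ^ 64) ^ 2 by ring, h64, CharTwo.add_sq, show (a ^ 4) ^ 2 = a ^ 8 by ring, h8]
  have := CharTwo.add_self_eq_zero (a ^ 4)
  linear_combination this

theorem P_dvd : P ∣ X ^ 128 - X := by
  rw [← AdjoinRoot.mk_eq_zero]
  have h : (AdjoinRoot.root P) ^ 7 + (AdjoinRoot.root P) ^ 3 + 1 = 0 := by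
    have this : AdjoinRoot.mk P (X ^ 7 + X ^ 3 + 1) = 0 := AdjoinRoot.mk_self
    rwa [map_add, map_add, map_pow, map_pow, AdjoinRoot.mk_X, map_one] at this
  have hne : Nontrivial (AdjoinRoot P) := by
    apply AdjoinRoot.nontrivial
    unfold P
    have : (X ^ 7 + X ^ 3 + 1 : (ZMod 2)[X]).degree = 7 := by compute_degree!
    rw [this]
    decide
  have : CharP (AdjoinRoot P) 2 := charP_of_injective_algebraMap
    (algebraMap (ZMod 2) (AdjoinRoot P)).injective 2
  have := pow128 h
  rw [map_sub, map_pow, AdjoinRoot.mk_X, this, sub_self]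

/-- the field with `128` elements -/
abbrev K : Type := GaloisField 2 7

noncomputable instance : Fintype K := Fintype.ofFinite K

noncomputable instance : DecidableEq K := Classical.decEq K

theorem cardK : Fintype.card K = 128 := by
  rw [← Nat.card_eq_fintype_card, GaloisField.card 2 7 (by norm_num)]
  norm_num

theorem exists_root : ∃ a : K, a ^ 7 + a ^ 3 + 1 = 0 := by
  obtain ⟨h, hh⟩ := P_dvd
  by_contra hno
  push Not at hno
  have hz : ∀ a : K, aeval a h = 0 := by
    intro a
    have h1 : aeval a (X ^ 128 - X : (ZMod 2)[X]) = 0 := by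
      simp only [map_sub, map_pow, aeval_X]
      have := FiniteField.pow_card a
      rw [cardK] at this
      rw [this, sub_self]
    rw [hh, map_mul] at h1
    rcases mul_eq_zero.1 h1 with h2 | h2
    · exfalso
      apply hno a
      simpa [P] using h2
    · exact h2
  have hP : P.natDegree = 7 := by unfold P; compute_degree!
  have hP0 : P ≠ 0 := by
    intro h0
    rw [h0] at hP
    simp at hP
  have hd : (X ^ 128 - X : (ZMod 2)[X]).natDegree = 128 := by compute_degree!
  have hh0 : h ≠ 0 := by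
    rintro rfl
    rw [hh] at hd
    simp at hd
  have hdeg : h.natDegree = 121 := by
    rw [hh, natDegree_mul hP0 hh0, hP] at hd
    omega
  have hm : (h.map (algebraMap (ZMod 2) K)) = 0 := by
    apply Polynomial.eq_zero_of_natDegree_lt_card_of_eval_eq_zero' _ Finset.univ
    · intro a _
      rw [eval_map_algebraMap]
      exact hz a
    · rw [natDegree_map, hdeg, Finset.card_univ, cardK]
      norm_num
  exact hh0 ((Polynomial.map_eq_zero _).1 hm)

/-- the primitive element -/
noncomputable def al : K := exists_root.choose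

theorem al_root : al ^ 7 + al ^ 3 + 1 = 0 := exists_root.choose_spec

theorem al_ne_zero : al ≠ 0 := by
  intro h
  have := al_root
  rw [h] at this
  simp at this

theorem al_ne_one : al ≠ 1 := by
  intro h
  have h1 := al_root
  rw [h] at h1
  have h2 : (1 : K) + 1 = 0 := CharTwo.add_self_eq_zero 1
  have : (1 : K) = 0 := by linear_combination h1 - h2
  exact one_ne_zero this

theorem al_127 : al ^ 127 = 1 := by
  have := FiniteField.pow_card_sub_one_eq_one al al_ne_zero
  rwa [cardK] at this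

theorem order_al : orderOf al = 127 :=
  orderOf_eq_prime (hp := ⟨by norm_num⟩) al_127 al_ne_one

theorem al_mod (j : ℕ) : al ^ (j % 127) = al ^ j := by
  conv_rhs => rw [← pow_mod_orderOf, order_al]

theorem al_inj {i j : ℕ} (hi : i < 127) (hj : j < 127) (h : al ^ i = al ^ j) : i = j := by
  have := pow_injOn_Iio_orderOf (x := al)
  rw [order_al] at this
  exact this hi hj h

theorem univ_eq : (Finset.univ : Finset K) =
    insert 0 ((range 127).image fun t => al ^ t) := by
  symm
  apply Finset.eq_univ_of_card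
  have h0 : (0 : K) ∉ (range 127).image fun t => al ^ t := by
    rw [Finset.mem_image]
    rintro ⟨t, _, ht⟩
    exact pow_ne_zero t al_ne_zero ht
  rw [Finset.card_insert_of_notMem h0, Finset.card_image_of_injOn, card_range, cardK]
  intro i hi j hj h
  exact al_inj (by simpa using hi) (by simpa using hj) h

theorem sum_K (F : K → ℤ) : ∑ x : K, F x = F 0 + ∑ t ∈ range 127, F (al ^ t) := by
  rw [univ_eq, Finset.sum_insert, Finset.sum_image]
  · intro i hi j hj h
    exact al_inj (by simpa using hi) (by simpa using hj) h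
  · rw [Finset.mem_image]
    rintro ⟨t, _, ht⟩
    exact pow_ne_zero t al_ne_zero ht

open Classical in
/-- the feedback function -/
noncomputable def g (x : K) : ZMod 2 :=
  if h : ∃ t < 127, al ^ t = x then b2 (at'.testBit h.choose) else 0

theorem g_zero : g 0 = 0 := by
  unfold g
  rw [dif_neg]
  rintro ⟨t, _, ht⟩
  exact pow_ne_zero t al_ne_zero ht

theorem g_pow (j : ℕ) : g (al ^ j) = b2 (at'.testBit (j % 127)) := by
  have hj : j % 127 < 127 := Nat.mod_lt _ (by norm_num)
  have h : ∃ t < 127, al ^ t = al ^ j := ⟨j % 127, hj, al_mod j⟩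
  unfold g
  rw [dif_pos h]
  have h1 : al ^ h.choose = al ^ (j % 127) := by rw [al_mod]; exact h.choose_spec.2
  have h2 := al_inj h.choose_spec.1 hj h1
  rw [h2]

theorem sgn : ∀ a b : Bool, (-1 : ℤ) ^ (b2 a + b2 b).val = 1 - 2 * (if (a ^^ b) = true then 1 else 0) := by
  decide

theorem sgn0 : ∀ a : Bool, (-1 : ℤ) ^ (0 + b2 a).val = 1 - 2 * (if a = true then 1 else 0) := by
  decide

theorem sum_count (p : ℕ → Bool) (h : ((range 127).filter fun t => p t = true).card = 64) :
    ∑ t ∈ range 127, ((1 : ℤ) - 2 * (if p t = true then 1 else 0)) = -1 := by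
  rw [Finset.sum_sub_distrib, ← Finset.mul_sum, Finset.sum_boole, h]
  norm_num

theorem orth : Orthogonal g := by
  intro l hl
  rw [sum_K]
  rw [mul_zero, g_zero]
  have e0 : (-1 : ℤ) ^ ((0 : ZMod 2) + 0).val = 1 := by decide
  rw [e0]
  by_cases hl0 : l = 0
  · subst hl0
    have : ∀ t ∈ range 127, (-1 : ℤ) ^ (g (0 * al ^ t) + g (al ^ t)).val =
        1 - 2 * (if at'.testBit t = true then 1 else 0) := by
      intro t ht
      rw [zero_mul, g_zero, g_pow, Nat.mod_eq_of_lt (by simpa using ht)]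
      exact sgn0 _
    rw [Finset.sum_congr rfl this, sum_count _ check7]
    norm_num
  · have hmem : l ∈ (Finset.univ : Finset K) := Finset.mem_univ l
    rw [univ_eq, Finset.mem_insert, Finset.mem_image] at hmem
    rcases hmem with h | ⟨q, hq, rfl⟩
    · exact absurd h hl0
    · have hq' : q < 127 := by simpa using hq
      have hq0 : q ≠ 0 := by
        rintro rfl
        simp at hl
      have : ∀ t ∈ range 127, (-1 : ℤ) ^ (g (al ^ q * al ^ t) + g (al ^ t)).val =
          1 - 2 * (if (at'.testBit t ^^ at'.testBit ((q + t) % 127)) = true then 1 else 0) := by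
        intro t ht
        rw [← pow_add, g_pow, g_pow, Nat.mod_eq_of_lt (show t < 127 by simpa using ht), sgn,
          Bool.xor_comm]
      rw [Finset.sum_congr rfl this, sum_count _ (check6 q hq' hq0)]
      norm_num

/-! ### coordinates -/

/-- coordinate vector of a number -/
def vec (u : ℕ) (i : Fin 7) : ZMod 2 := b2 (u.testBit i)

/-- the element with given coordinates -/
noncomputable def ev (v : Fin 7 → ZMod 2) : K := ∑ i : Fin 7, v i • al ^ (i : ℕ)

/-- multiplication by `α` in coordinates -/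
def mulA (v : Fin 7 → ZMod 2) : Fin 7 → ZMod 2 := ![v 6, v 0, v 1, v 2 + v 6, v 3, v 4, v 5]

theorem ev_mulA (v : Fin 7 → ZMod 2) : ev (mulA v) = al * ev v := by
  have h7 : al ^ 7 = al ^ 3 + 1 := by
    have := CharTwo.add_self_eq_zero (al ^ 3 + 1)
    linear_combination al_root - this
  unfold ev mulA
  simp only [Fin.sum_univ_succ, Fin.sum_univ_zero, Algebra.smul_def]
  simp
  linear_combination (-(algebraMap (ZMod 2) K (v 6))) * h7

theorem vec_stp : ∀ u < 128, ∀ i : Fin 7, vec (stp u) i = mulA (vec u) i := by decide +kernel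

theorem ev_st (t : ℕ) (ht : t < 127) : ev (vec (st t)) = al ^ t := by
  induction t with
  | zero =>
    have : vec (st 0) = ![1, 0, 0, 0, 0, 0, 0] := by decide +kernel
    rw [this]
    simp [ev, Fin.sum_univ_succ]
  | succ t ih =>
    have h := ih (by omega)
    have h1 : vec (st (t + 1)) = mulA (vec (st t)) := by
      funext i
      exact vec_stp _ (check4 t (by omega)).1 i
    rw [h1, ev_mulA, h, pow_succ, mul_comm]

theorem g_ev (u : ℕ) (hu : u < 128) : g (ev (vec u)) = b2 (G.testBit u) := by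
  by_cases h0 : u = 0
  · subst h0
    have : ev (vec 0) = 0 := by simp [ev, vec, b2]
    rw [this, g_zero, G_zero]
    rfl
  · obtain ⟨h1, h2⟩ := check5 u hu h0
    generalize (LG >>> (7 * u)) % 2 ^ 7 = t at h1 h2
    subst h2
    rw [ev_st t h1, g_pow, Nat.mod_eq_of_lt h1, (check4 t h1).2]

/-- taps -/
def r : Fin 7 → ℕ := ![1, 3, 6, 8, 9, 10, 11]

theorem un_bit : ∀ b0 b1 b2' b3 b4 b5 b6 : Bool, ∀ i : Fin 7,
    (b0.toNat + 2 * b1.toNat + 4 * b2'.toNat + 8 * b3.toNat + 16 * b4.toNat + 32 * b5.toNat +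
      64 * b6.toNat).testBit i = ![b0, b1, b2', b3, b4, b5, b6] i := by
  decide +kernel

theorem un_lt (b : ℕ → Bool) (k : ℕ) : un b k < 128 := by
  have h : ∀ x : Bool, x.toNat ≤ 1 := by decide
  unfold un
  have h1 := h (b (k + 1))
  have h2 := h (b (k + 3))
  have h3 := h (b (k + 6))
  have h4 := h (b (k + 8))
  have h5 := h (b (k + 9))
  have h6 := h (b (k + 10))
  have h7 := h (b (k + 11))
  omega

theorem vec_un (b : ℕ → Bool) (k : ℕ) (i : Fin 7) : vec (un b k) i = b2 (b (k + r i)) := by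
  unfold vec un
  rw [un_bit]
  fin_cases i <;> rfl

theorem gen : Generated 7 12 al g 0 r s := by
  intro k
  have hk : k % 4095 < 4095 := Nat.mod_lt _ (by norm_num)
  have hr : ∀ i, r i ≤ 11 := by decide
  have h1 : (∑ i : Fin 7, s (k + r i) • al ^ (i : ℕ)) = ev (vec (un BB.testBit (k % 4095))) := by
    unfold ev
    refine Finset.sum_congr rfl fun i _ => ?_
    rw [vec_un, s_add _ _ (by have := hr i; omega)]
  have h2 := allR_spec _ 12 0 check1 (k % 4095) (Nat.zero_le _) (by omega)
  simp only [Nat.not_le.2 hk, decide_false, Bool.false_or, beq_iff_eq] at h2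
  rw [h1, g_ev _ (un_lt _ _), s_add _ _ (by norm_num), h2, b2_xor, zero_add]
  congr 1
  rw [← add_zero k, s_add k 0 (by norm_num), add_zero, add_zero]

theorem vec_ofBits : ∀ u < 128, ∀ v < 128, ∀ i : Fin 7, vec (u ^^^ v) i = vec u i + vec v i := by
  decide +kernel

theorem nonaff_data : ∃ u < 128, ∃ v < 128, u ^^^ v < 128 ∧
    b2 (G.testBit (u ^^^ v)) ≠ b2 (G.testBit u) + b2 (G.testBit v) := by
  decide +kernel

theorem nonaffine : ¬ AffineInCoordinates 7 al g := by
  rintro ⟨a, b, h⟩
  have hb : b = 0 := by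
    have h0 := h 0
    simp [g_zero] at h0
    exact h0.symm
  subst hb
  obtain ⟨u, hu, v, hv, huv, hne⟩ := nonaff_data
  apply hne
  have h1 : ∀ w < 128, b2 (G.testBit w) = ∑ i : Fin 7, a i * vec w i := by
    intro w hw
    rw [← g_ev w hw]
    have := h (vec w)
    rw [zero_add] at this
    exact this
  rw [h1 _ hu, h1 _ hv, h1 _ huv, ← Finset.sum_add_distrib]
  refine Finset.sum_congr rfl fun i _ => ?_
  rw [vec_ofBits u hu v hv, mul_add]

theorem main : ∃ (m n : ℕ) (K : Type) (_ : Field K) (_ : Fintype K) (_ : Algebra (ZMod 2) K)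
    (α : K) (g : K → ZMod 2) (c : ZMod 2) (r : Fin m → ℕ) (s : ℕ → ZMod 2),
    m = 7 ∧ n = 12 ∧ Fintype.card K = 2 ^ m ∧ orderOf α = 2 ^ m - 1 ∧ α ^ 7 + α ^ 3 + 1 = 0 ∧
    Orthogonal g ∧ ¬ AffineInCoordinates m α g ∧
    StrictMono r ∧ (∀ i, 0 < r i ∧ r i < n) ∧ Generated m n α g c r s ∧
    SpanSequence n s ∧ linearSpan s ≤ 4051 ∧ linearSpan s < 2 ^ n - 2 - 3 * n := by
  refine ⟨7, 12, K, inferInstance, inferInstance, inferInstance, al, g, 0, r, s, rfl, rfl,
    ?_, ?_, al_root, orth, nonaffine, ?_, ?_, gen, span, span_le, ?_⟩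
  · rw [cardK]; norm_num
  · rw [order_al]; norm_num
  · intro i j hij
    revert i j
    decide
  · decide
  · exact lt_of_le_of_lt span_le (by norm_num)

end Q223.SpanN
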