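import Pool.Agent.Q256.UG.Stm
import Pool.Agent.Q285.UI_TAY

set_option autoImplicit false

/-! Project UG (helper256), job NWT: Newton's method at a point of the curve. -/

namespace Pool.Agent.Q223.UG

open Finset MvPolynomial Pool.Agent.Q256.UG
open Pool.Agent.Q256.UP (PBox)
open Pool.Agent.Q256.UI (ev tc Q kap rho)

/-- one step of Newton's method (increasing case) -/
theorem newton_pos (f f' : ℝ → ℝ) (hd : ∀ w, HasDerivAt f (f' w) w) (z δ : ℝ) (hδ : 0 < δ)
    (h0 : 0 ≤ f' z) (h : |f z| ≤ δ * f' z / 2)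
    (hb : ∀ w, |w - z| ≤ δ → |f' w - f' z| ≤ f' z / 2) : ∃ θ, |θ - z| ≤ δ ∧ f θ = 0 := by
  have hc : Continuous f := continuous_iff_continuousAt.2 fun w => (hd w).continuousAt
  have h1 : 0 ≤ f (z + δ) := by
    obtain ⟨c, hcm, hce⟩ := exists_hasDerivAt_eq_slope f f' (a := z) (b := z + δ) (by linarith)
      hc.continuousOn (fun w _ => hd w)
    have h2 := hb c (by rw [abs_le]; constructor <;> linarith [hcm.1, hcm.2])
    have h3 : f' z / 2 ≤ f' c := by linarith [(abs_le.1 h2).1]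
    have h4 : z + δ - z = δ := by ring
    rw [h4, eq_div_iff hδ.ne'] at hce
    have h5 : f' z / 2 * δ ≤ f' c * δ := mul_le_mul_of_nonneg_right h3 hδ.le
    linarith [(abs_le.1 h).1]
  have h2 : f (z - δ) ≤ 0 := by
    obtain ⟨c, hcm, hce⟩ := exists_hasDerivAt_eq_slope f f' (a := z - δ) (b := z) (by linarith)
      hc.continuousOn (fun w _ => hd w)
    have h2 := hb c (by rw [abs_le]; constructor <;> linarith [hcm.1, hcm.2])
    have h3 : f' z / 2 ≤ f' c := by linarith [(abs_le.1 h2).1]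
    have h4 : z - (z - δ) = δ := by ring
    rw [h4, eq_div_iff hδ.ne'] at hce
    have h5 : f' z / 2 * δ ≤ f' c * δ := mul_le_mul_of_nonneg_right h3 hδ.le
    linarith [(abs_le.1 h).2]
  obtain ⟨θ, hθ, hθ0⟩ := intermediate_value_Icc (by linarith : z - δ ≤ z + δ)
    hc.continuousOn (⟨h2, h1⟩ : (0 : ℝ) ∈ Set.Icc (f (z - δ)) (f (z + δ)))
  exact ⟨θ, by rw [abs_le]; constructor <;> linarith [hθ.1, hθ.2], hθ0⟩

/-- one step of Newton's method -/
theorem newton (f f' : ℝ → ℝ) (hd : ∀ w, HasDerivAt f (f' w) w) (z δ : ℝ) (hδ : 0 < δ)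
    (h : |f z| ≤ δ * |f' z| / 2)
    (hb : ∀ w, |w - z| ≤ δ → |f' w - f' z| ≤ |f' z| / 2) : ∃ θ, |θ - z| ≤ δ ∧ f θ = 0 := by
  rcases le_total 0 (f' z) with h0 | h0
  · rw [abs_of_nonneg h0] at h hb
    exact newton_pos f f' hd z δ hδ h0 h hb
  · rw [abs_of_nonpos h0] at h hb
    obtain ⟨θ, h1, h2⟩ := newton_pos (fun w => -f w) (fun w => -f' w) (fun w => (hd w).neg) z δ hδ
      (by linarith) (by simpa using h) (fun w hw => by
        have h3 : -f' w - -f' z = -(f' w - f' z) := by ring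
        rw [h3, abs_neg]
        exact hb w hw)
    exact ⟨θ, h1, by linarith⟩

/-- the derivative of the leading form -/
theorem deriv_tc (d : ℕ) (F : MvPolynomial (Fin 2) ℤ) (w : ℝ) :
    HasDerivAt (fun w => tc F w d 0) (tc F w d 1) w := by
  unfold tc
  refine HasDerivAt.fun_sum fun i _ => ?_
  have h1 := (hasDerivAt_pow i w).const_mul
    (((F.coeff (Finsupp.single 0 (d - i) + Finsupp.single 1 i) : ℤ) : ℝ) * (i.choose 0 : ℝ))
  simp only [Nat.choose_zero_right, Nat.cast_one, Nat.sub_zero, Nat.choose_one_right] at h1 ⊢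
  refine h1.congr_deriv ?_
  ring

theorem coeff_le {d H : ℕ} {F : MvPolynomial (Fin 2) ℤ} (hF : F ∈ PBox d H) (α : Fin 2 →₀ ℕ) :
    |((F.coeff α : ℤ) : ℝ)| ≤ H := by
  have h3 := hF.2 α
  have h4 : ((|F.coeff α| : ℤ) : ℝ) ≤ ((H : ℤ) : ℝ) := Int.cast_le.2 h3
  rw [Int.cast_abs, Int.cast_natCast] at h4
  exact h4

theorem tc_zero_le {d H : ℕ} {F : MvPolynomial (Fin 2) ℤ} (hF : F ∈ PBox d H) (z : ℝ)
    (hz : |z| ≤ 1) (k : ℕ) : |tc F z k 0| ≤ (k + 1) * H := by
  unfold tc
  refine (abs_sum_le_sum_abs _ _).trans ?_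
  calc _ ≤ ∑ i ∈ range (k + 1), (H : ℝ) := by
        refine sum_le_sum fun i _ => ?_
        rw [abs_mul, abs_mul, abs_pow, Nat.choose_zero_right, Nat.cast_one, abs_one, mul_one]
        calc _ ≤ (H : ℝ) * 1 := mul_le_mul (coeff_le hF _) (pow_le_one₀ (abs_nonneg _) hz)
              (by positivity) (by positivity)
          _ = H := mul_one _
    _ = (k + 1) * H := by simp

theorem lip {d H : ℕ} {F : MvPolynomial (Fin 2) ℤ} (hF : F ∈ PBox d H) (w z : ℝ)
    (hw : |w| ≤ 2) (hz : |z| ≤ 2) :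
    |tc F w d 1 - tc F z d 1| ≤ (∑ i ∈ range (d + 1), (i : ℝ) * (i * 2 ^ i)) * H * |w - z| := by
  unfold tc
  rw [← sum_sub_distrib, sum_mul, sum_mul]
  refine (abs_sum_le_sum_abs _ _).trans (sum_le_sum fun i _ => ?_)
  rw [← mul_sub, abs_mul, abs_mul, Nat.choose_one_right, Nat.abs_cast]
  have h1 : |w ^ (i - 1) - z ^ (i - 1)| ≤ i * 2 ^ i * |w - z| := by
    refine (abs_pow_sub_pow_le w z (i - 1)).trans ?_
    have h2 : max |w| |z| ^ (i - 1 - 1) ≤ 2 ^ i :=
      (pow_le_pow_left₀ (by positivity) (max_le hw hz) _).trans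
        (pow_le_pow_right₀ (by norm_num) (by omega))
    have h3 : ((i - 1 : ℕ) : ℝ) ≤ i := Nat.cast_le.2 (by omega)
    calc |w - z| * ((i - 1 : ℕ) : ℝ) * max |w| |z| ^ (i - 1 - 1)
        ≤ |w - z| * i * 2 ^ i := by gcongr
      _ = i * 2 ^ i * |w - z| := by ring
  calc _ ≤ (H : ℝ) * i * (i * 2 ^ i * |w - z|) := by
        refine mul_le_mul (mul_le_mul_of_nonneg_right (coeff_le hF _) (by positivity)) h1
          (abs_nonneg _) (by positivity)
    _ = i * (i * 2 ^ i) * H * |w - z| := by ring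

/-- the leading form is small at the slope of a zero -/
theorem lead_le {d H : ℕ} {F : MvPolynomial (Fin 2) ℤ} (hF : F ∈ PBox d H) (x y : ℤ)
    (hx : 1 ≤ (x : ℝ)) (hy : |y| ≤ x) (h0 : eval ![x, y] F = 0) :
    |tc F ((y : ℝ) / x) d 0| * x ≤ ((d : ℝ) + 1) ^ 2 * H := by
  set z : ℝ := (y : ℝ) / x with hz
  have hx0 : (0 : ℝ) < x := by linarith
  have hz1 : |z| ≤ 1 := by
    rw [hz, abs_div, abs_of_pos hx0, div_le_one hx0]
    exact_mod_cast hy
  have h1 := Pool.Agent.Q285.UI.tay_one d F z x 0 hF.1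
  have h2 : z * x + 0 = y := by rw [hz]; field_simp; ring
  rw [h2, Pool.Agent.Q285.UI.tay.2, h0, Int.cast_zero] at h1
  have h3 : Q d (tc F z) x 0 = ∑ k ∈ range (d + 1), tc F z k 0 * x ^ k := by
    unfold Q
    refine sum_congr rfl fun k _ => ?_
    rw [sum_eq_single 0]
    · simp
    · intro j _ hj
      rw [zero_pow hj, mul_zero]
    · intro h; simp at h
  rw [h3, sum_range_succ] at h1
  have h4 : |∑ k ∈ range d, tc F z k 0 * x ^ k| ≤ (d + 1) ^ 2 * H * x ^ (d - 1) := by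
    refine (abs_sum_le_sum_abs _ _).trans ?_
    calc _ ≤ ∑ k ∈ range d, ((d : ℝ) + 1) * H * x ^ (d - 1) := by
          refine sum_le_sum fun k hk => ?_
          have hk' := mem_range.1 hk
          rw [abs_mul, abs_pow, abs_of_pos hx0]
          refine mul_le_mul ((tc_zero_le hF z hz1 k).trans ?_)
            (pow_le_pow_right₀ hx (by omega)) (by positivity) (by positivity)
          have : (k : ℝ) ≤ d := Nat.cast_le.2 hk'.le
          gcongr
      _ = d * (((d : ℝ) + 1) * H * x ^ (d - 1)) := by simp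
      _ ≤ (d + 1) * (((d : ℝ) + 1) * H * x ^ (d - 1)) := by gcongr; linarith
      _ = (d + 1) ^ 2 * H * x ^ (d - 1) := by ring
  have h5 : |tc F z d 0| * x ^ d ≤ (d + 1) ^ 2 * H * x ^ (d - 1) := by
    have h6 : tc F z d 0 * x ^ d = -∑ k ∈ range d, tc F z k 0 * x ^ k := by linarith
    have h7 : |tc F z d 0| * x ^ d = |tc F z d 0 * x ^ d| := by
      rw [abs_mul, abs_pow, abs_of_pos hx0]
    rw [h7, h6, abs_neg]
    exact h4
  rcases Nat.eq_zero_or_pos d with hd | hd
  · subst hd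
    simp only [range_zero, sum_empty, pow_zero, mul_one, zero_add] at h1
    rw [← h1, abs_zero, zero_mul]
    positivity
  · have h8 : (x : ℝ) ^ d = x * x ^ (d - 1) := by
      rw [← pow_succ']
      congr 1
      omega
    rw [h8, ← mul_assoc] at h5
    exact le_of_mul_le_mul_right h5 (by positivity)

/-- **NWT** -/
theorem nwt : S_NWT := by
  intro d hd
  obtain ⟨C1, hC1⟩ : ∃ C1 : ℝ, C1 = ((d : ℝ) + 1) ^ 2 := ⟨_, rfl⟩
  obtain ⟨C2, hC2⟩ : ∃ C2 : ℝ, C2 = ∑ i ∈ range (d + 1), (i : ℝ) * (i * 2 ^ i) := ⟨_, rfl⟩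
  have hC1p : 1 ≤ C1 := by
    rw [hC1]
    have : (0 : ℝ) ≤ d := Nat.cast_nonneg d
    nlinarith
  have hC2p : 0 ≤ C2 := by rw [hC2]; positivity
  refine ⟨256 * C1 * (C2 + 1), by nlinarith, fun A' hA' H F hH hF x y hx hy h0 => ?_⟩
  have hHr : (1 : ℝ) ≤ H := by exact_mod_cast hH
  have hA1 : C1 ≤ A' := by nlinarith
  have hAC : 256 * C1 * C2 ≤ A' := by nlinarith
  have hA256 : 256 * C1 ≤ A' := by nlinarith
  have hA0 : 0 < A' := by linarith
  have hH3 : (H : ℝ) ≤ (H : ℝ) ^ 3 := by nlinarith [sq_nonneg ((H : ℝ) - 1), sq_nonneg (H : ℝ)]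
  have hx1 : 1 ≤ (x : ℝ) := by nlinarith
  have hx0 : (0 : ℝ) < x := by linarith
  have hle := lead_le hF x y hx1 hy h0
  rw [← hC1] at hle
  set z : ℝ := (y : ℝ) / x with hz
  have hz1 : |z| ≤ 1 := by
    rw [hz, abs_div, abs_of_pos hx0, div_le_one hx0]
    exact_mod_cast hy
  -- the value is tiny
  have hfz : |tc F z d 0| * (A' * (H : ℝ) ^ 2) ≤ C1 := by
    have h1 : |tc F z d 0| * (A' * (H : ℝ) ^ 3) ≤ |tc F z d 0| * x :=
      mul_le_mul_of_nonneg_left hx (abs_nonneg _)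
    have h2 : |tc F z d 0| * (A' * (H : ℝ) ^ 2) * H ≤ C1 * H := by
      calc _ = |tc F z d 0| * (A' * (H : ℝ) ^ 3) := by ring
        _ ≤ _ := h1.trans hle
    exact le_of_mul_le_mul_right h2 (by linarith)
  have hH2 : (1 : ℝ) ≤ (H : ℝ) ^ 2 := by nlinarith
  have hHH : (H : ℝ) ≤ (H : ℝ) ^ 2 := by nlinarith
  by_cases hfl : |tc F z d 1| ≤ 1 / 8
  · left
    refine ⟨z, by linarith, ?_, hfl⟩
    have h1 : |tc F z d 0| * (H : ℝ) ^ 2 * A' ≤ 1 * A' := by
      calc _ = |tc F z d 0| * (A' * (H : ℝ) ^ 2) := by ring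
        _ ≤ C1 := hfz
        _ ≤ 1 * A' := by linarith
    exact le_of_mul_le_mul_right h1 hA0
  · right
    rw [not_le] at hfl
    have hf'0 : 0 < |tc F z d 1| := by linarith
    by_cases hf0 : tc F z d 0 = 0
    · refine ⟨z, ⟨by linarith, hf0, by linarith⟩, ?_⟩
      have h1 : (y : ℝ) - z * x = 0 := by rw [hz]; field_simp; ring
      rw [h1, abs_zero]
      positivity
    · obtain ⟨δ, hδ⟩ : ∃ δ : ℝ, δ = 2 * |tc F z d 0| / |tc F z d 1| := ⟨_, rfl⟩
      have hfp : 0 < |tc F z d 0| := abs_pos.2 hf0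
      have hδ0 : 0 < δ := by rw [hδ]; positivity
      have hδm : δ * |tc F z d 1| = 2 * |tc F z d 0| := by rw [hδ]; field_simp
      have hδ16 : δ ≤ 16 * |tc F z d 0| := by
        have : δ * (1 / 8) ≤ δ * |tc F z d 1| := mul_le_mul_of_nonneg_left hfl.le hδ0.le
        linarith
      have hf1 : |tc F z d 0| * (256 * (C2 + 1) * H) ≤ 1 := by
        have h1 : |tc F z d 0| * (256 * (C2 + 1) * H) * C1 ≤ 1 * C1 := by
          calc _ = |tc F z d 0| * ((256 * C1 * (C2 + 1)) * H) := by ring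
            _ ≤ |tc F z d 0| * (A' * (H : ℝ) ^ 2) := by gcongr
            _ ≤ 1 * C1 := by linarith
        exact le_of_mul_le_mul_right h1 (by linarith)
      have hf2 : |tc F z d 0| * 256 ≤ 1 := by
        have h1 : (256 : ℝ) ≤ 256 * (C2 + 1) * H := by nlinarith
        exact (mul_le_mul_of_nonneg_left h1 (abs_nonneg _)).trans hf1
      have hf3 : |tc F z d 0| * (256 * C2 * H) ≤ 1 := by
        have h1 : 256 * C2 * H ≤ 256 * (C2 + 1) * H := by gcongr; linarith
        exact (mul_le_mul_of_nonneg_left h1 (abs_nonneg _)).trans hf1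
      have hδ1 : δ ≤ 1 := by linarith
      have hlip : ∀ w, |w - z| ≤ δ → |tc F w d 1 - tc F z d 1| ≤ 1 / 16 := by
        intro w hw
        have hw2 : |w| ≤ 2 := by
          have : |w| ≤ |w - z| + |z| := by
            have := abs_add_le (w - z) z
            simpa using this
          linarith
        refine (lip hF w z hw2 (by linarith)).trans ?_
        rw [← hC2]
        calc C2 * H * |w - z| ≤ C2 * H * (16 * |tc F z d 0|) := by
              gcongr
              exact hw.trans hδ16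
          _ = (|tc F z d 0| * (256 * C2 * H)) / 16 := by ring
          _ ≤ 1 / 16 := by linarith
      obtain ⟨θ, hθ, hθ0⟩ := newton (fun w => tc F w d 0) (fun w => tc F w d 1)
        (fun w => deriv_tc d F w) z δ hδ0 (by linarith) (fun w hw => by
          have := hlip w hw
          show |tc F w d 1 - tc F z d 1| ≤ |tc F z d 1| / 2
          linarith)
      have h1 := hlip θ hθ
      have h2 : |tc F z d 1| ≤ |tc F θ d 1| + 1 / 16 := by
        have := abs_sub_abs_le_abs_sub (tc F z d 1) (tc F θ d 1)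
        rw [abs_sub_comm] at this
        linarith
      have h3 : |tc F θ d 1| ≤ |tc F z d 1| + 1 / 16 := by
        have := abs_sub_abs_le_abs_sub (tc F θ d 1) (tc F z d 1)
        linarith
      have hθp : 0 < |tc F θ d 1| := by linarith
      refine ⟨θ, ⟨?_, hθ0, by linarith⟩, ?_⟩
      · have : |θ| ≤ |θ - z| + |z| := by
          have := abs_add_le (θ - z) z
          simpa using this
        linarith
      · have h4 : (y : ℝ) - θ * x = -(θ - z) * x := by
          have : (y : ℝ) = z * x := by rw [hz]; field_simp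
          rw [this]; ring
        rw [h4, abs_mul, abs_neg, abs_of_pos hx0, le_div_iff₀ hθp]
        calc |θ - z| * x * |tc F θ d 1| ≤ δ * x * (3 / 2 * |tc F z d 1|) := by
              gcongr
              linarith
          _ = 3 / 2 * x * (δ * |tc F z d 1|) := by ring
          _ = 3 * (|tc F z d 0| * x) := by rw [hδm]; ring
          _ ≤ 3 * (C1 * H) := by linarith
          _ ≤ A' * H := by nlinarith
end Pool.Agent.Q223.UG
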