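import Pool.Agent.Q16.XP.Stm2
import Pool.Agent.Q223.XP_B3

/-!
# Project XP, job E6
-/

set_option autoImplicit false

namespace Pool.Agent.Q223.XP

open Q16.XP

theorem ex_pow (a b : ℕ) (hb : b ≠ 0) : ex (a ^ b) = b * ex a := by
  unfold ex
  rw [Nat.pow_minFac hb, Nat.factorization_pow]
  rfl

theorem ex_pow_mul (p a b : ℕ) (ha : 1 < a) (hb : 1 < b) (hpa : a.minFac = p)
    (hpb : b.minFac = p) : (a ^ b * b).minFac = p ∧ ex (a ^ b * b) = b * ex a + ex b := by
  have h1 : 1 < a ^ b := Nat.one_lt_pow (by omega) ha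
  have h2 : (a ^ b).minFac = p := by rw [Nat.pow_minFac (by omega), hpa]
  refine ⟨minFac_mul p (a ^ b) b h1 hb h2 hpb, ?_⟩
  rw [ex_mul p (a ^ b) b h1 hb h2 hpb, ex_pow a b (by omega)]

/-- the digit sum -/
def ds (p n : ℕ) : ℕ := (Nat.digits p n).sum

theorem ds_pow_mul (p t m : ℕ) (hp : 1 < p) (hm : 0 < m) : ds p (p ^ t * m) = ds p m := by
  unfold ds
  rw [Nat.digits_base_pow_mul hp hm, List.sum_append, List.sum_replicate, smul_zero, zero_add]

/-- decomposition by the last nonzero digit -/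
theorem decomp (p n : ℕ) (hp : p.Prime) (hn : 0 < n) :
    0 < dg p n ∧ (rd p n = 0 → ds p n = dg p n) ∧
      (rd p n ≠ 0 → ds p n = dg p n + ds p (rd p n)) := by
  have h1 := Nat.ordProj_mul_ordCompl_eq_self n p
  have h3 : ¬ p ∣ n / p ^ n.factorization p := Nat.not_dvd_ordCompl hp hn.ne'
  unfold rd dg
  set t := n.factorization p with ht
  set u := n / p ^ t with hu
  have hu0 : 0 < u := by
    rw [Nat.pos_iff_ne_zero]
    intro h
    exact h3 (h ▸ dvd_zero p)
  have hd : 0 < u % p := by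
    rw [Nat.pos_iff_ne_zero]
    intro h
    exact h3 (Nat.dvd_of_mod_eq_zero h)
  have h4 : n - u % p * p ^ t = p ^ (t + 1) * (u / p) := by
    have h5 : n = p ^ t * (p * (u / p) + u % p) := by rw [Nat.div_add_mod, h1]
    have h6 : p ^ t * (p * (u / p) + u % p) = p ^ (t + 1) * (u / p) + u % p * p ^ t := by ring
    rw [h6] at h5
    omega
  have h5 : ds p n = u % p + ds p (u / p) := by
    have h6 : ds p n = ds p u := by
      rw [← h1, ds_pow_mul p t u hp.one_lt hu0]
    rw [h6]
    unfold ds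
    rw [Nat.digits_def' hp.one_lt hu0, List.sum_cons]
  rw [h4]
  refine ⟨hd, ?_, ?_⟩
  · intro h
    have h7 : u / p = 0 := (Nat.mul_eq_zero.1 h).resolve_left (pow_pos hp.pos _).ne'
    rw [h5, h7]
    simp [ds]
  · intro h
    have h7 : 0 < u / p := by
      rw [Nat.pos_iff_ne_zero]
      intro h8
      exact h (by rw [h8, mul_zero])
    rw [h5, ds_pow_mul p (t + 1) _ hp.one_lt h7]

theorem DSf_le (p : ℕ) (hp : p.Prime) (k : ℕ) : ∀ n, 0 < n → DSf p (G3 p) k n + 1 ≤ ds p n := by
  induction k with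
  | zero =>
    intro n hn
    obtain ⟨h1, h2, h3⟩ := decomp p n hp hn
    show 0 + 1 ≤ ds p n
    by_cases h : rd p n = 0
    · rw [h2 h]; omega
    · rw [h3 h]; omega
  | succ k ih =>
    intro n hn
    obtain ⟨h1, h2, h3⟩ := decomp p n hp hn
    rw [DSf]
    split_ifs with h
    · rw [h2 h]; omega
    · have h4 := ih (rd p n) (Nat.pos_of_ne_zero h)
      have h5 : G3 p (n.factorization p) (dg p n) ((rd p n).factorization p) ≤ 1 := by
        unfold G3
        split_ifs <;> omega
      rw [h3 h]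
      omega

theorem t_E6 (hD1 : S_D1) : S_E6 := by
  intro J
  refine ⟨J + 1, fun n => ⟨min (DS n.minFac (G3 n.minFac) (ex n)) J, by omega⟩, ?_⟩
  intro p a b ha hb hpa hpb hJ heq
  have hp : p.Prime := by
    rw [← hpa]
    exact Nat.minFac_prime (by omega)
  have hα := ex_pos a ha
  have hβ := ex_pos b hb
  obtain ⟨e1, e2⟩ := ex_pow_mul p a b ha hb hpa hpb
  have h1 := congrArg Fin.val heq
  simp only [e1, e2, hpb] at h1
  have hb0 : 0 < b := by omega
  have hy : 0 < b * ex a := Nat.mul_pos hb0 hα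
  have hexb : b.factorization p = ex b := by
    unfold ex
    rw [hpb]
  have hdvd : p ^ ex b ∣ b * ex a := by
    rw [← hexb]
    exact (Nat.ordProj_dvd b p).mul_right _
  have h2 := hD1 p hp (G3 p) (ex b) (b * ex a) (ex b) hβ hy hdvd (Nat.lt_pow_self hp.one_lt)
  have h3 : G3 p (Nat.log p (ex b)) (ex b / p ^ Nat.log p (ex b))
      ((b * ex a).factorization p) = 1 := by
    unfold G3
    rw [if_pos]
    refine (Nat.pow_log_le_self p hβ.ne').trans ?_
    rw [Nat.factorization_mul hb0.ne' hα.ne']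
    show ex b ≤ b.factorization p + (ex a).factorization p
    omega
  rw [h3] at h2
  rw [add_comm (b * ex a) (ex b), h2] at h1
  have h4 : DS p (G3 p) (ex b) + 1 ≤ J := (DSf_le p hp (ex b) (ex b) hβ).trans hJ
  omega

end Pool.Agent.Q223.XP
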